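import Mathlib
import Pool.Agent.U839.Sv.Poor
import Pool.Agent.U462.Gap.Sieve
import Pool.Agent.U462.Uni.Cnt

set_option autoImplicit false

/-! # Windows with too few or too many integers without prime factors up to `T(n)` -/

open Finset Filter Topology

namespace Pool.Agent.U462.Uni

open Pool.Agent.N610.MS (V rel)
open Pool.Agent.U839.Sv (W W_eq W_pos Er Er_nonneg stretch wt Pr crt prod_pos')
open Pool.Agent.U462.Gap (fT fT_def' fT_nonneg Small err_le T_small exists_R tlog)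

/-- the sum over a column, both bounds (adapted from `U839.Sv.column`) -/
theorem column2 (R : ℕ) (hR : 13 ≤ R) (T : ℕ → ℕ) (hT : Monotone T) (P : Finset ℕ)
    (hP : ∀ p ∈ P, p.Prime) (x J K h t : ℕ) (hx : ∀ p ∈ P, p ≤ T x)
    (hJ : ∀ j, J < j → x ≤ (∏ q ∈ P, q) * j) (ht : T ((∏ q ∈ P, q) * (J + K) + h) ≤ t) :
    |∑ j ∈ Ioc J (J + K), fT T ((∏ q ∈ P, q) * j + h) -
      (if ∀ p ∈ P, ¬ p ∣ h then (∏ p ∈ P, (1 - 1 / (p : ℝ)))⁻¹ * K else 0)| ≤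
      if ∀ p ∈ P, ¬ p ∣ h then 2 ^ 25 * (1 / 2) ^ (2 * R) *
        ((∏ p ∈ P, (1 - 1 / (p : ℝ)))⁻¹ * K) + ((t : ℝ) + 2) ^ (8 * R + 18) else 0 := by
  classical
  obtain ⟨M, hM⟩ : ∃ M, M = ∏ q ∈ P, q := ⟨_, rfl⟩
  rw [← hM] at hJ ht ⊢
  have hpM : ∀ p ∈ P, p ∣ M := fun p hp => by rw [hM]; exact dvd_prod_of_mem _ hp
  have hPT : ∀ j, J < j → ∀ p ∈ P, p ≤ T (M * j + h) := by
    intro j hj p hp
    exact (hx p hp).trans (hT ((hJ j hj).trans (Nat.le_add_right _ _)))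
  split_ifs with hh
  · obtain ⟨u, hu⟩ := crt P hP h t
    rw [← hM] at hu
    have hg : Monotone (fun j => T (M * j + h)) := by
      intro i j hij
      apply hT
      have := Nat.mul_le_mul_left M hij
      omega
    have hs := stretch R hR (fun j => T (M * j + h)) hg P hP u J K hPT
    have he : ∀ j ∈ Ioc J (J + K), fT T (M * j + h) = wt (fun j => T (M * j + h)) P u j := by
      intro j hj
      rw [mem_Ioc] at hj
      rw [fT_def']
      unfold wt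
      have htj : T (M * j + h) ≤ t := (hg hj.2).trans ht
      have hiff : (∀ p, p.Prime → p ≤ T (M * j + h) → ¬ p ∣ M * j + h) ↔
          (∀ p, p.Prime → p ≤ T (M * j + h) → p ∉ P → ¬ p ∣ j + u) := by
        constructor
        · intro h1 p h2 h3 h4
          rw [← hu p h2 (h3.trans htj) h4 j]
          exact h1 p h2 h3
        · intro h1 p h2 h3
          by_cases h4 : p ∈ P
          · rw [← Nat.dvd_add_iff_right ((hpM p h4).mul_right j)]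
            exact hh p h4
          · rw [hu p h2 (h3.trans htj) h4 j]
            exact h1 p h2 h3 h4
      by_cases h1 : ∀ p, p.Prime → p ≤ T (M * j + h) → ¬ p ∣ M * j + h
      · rw [if_pos h1, if_pos (hiff.1 h1)]
      · rw [if_neg h1, if_neg (fun h2 => h1 (hiff.2 h2))]
    rw [sum_congr rfl he]
    refine hs.trans ?_
    have h2 := err_le R (T (M * (J + K) + h))
    have h3 : ((T (M * (J + K) + h) : ℝ) + 2) ^ (8 * R + 18) ≤ ((t : ℝ) + 2) ^ (8 * R + 18) := by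
      apply pow_le_pow_left₀ (by positivity)
      have : (T (M * (J + K) + h) : ℝ) ≤ t := by exact_mod_cast ht
      linarith
    linarith
  · push Not at hh
    obtain ⟨p, hp, hph⟩ := hh
    rw [sub_zero, abs_nonpos_iff]
    apply sum_eq_zero
    intro j hj
    rw [mem_Ioc] at hj
    rw [fT_def', if_neg]
    push Not
    exact ⟨p, hP p hp, hPT j hj.1 p hp, (Nat.dvd_add ((hpM p hp).mul_right j) hph)⟩

lemma shift_sum (f : ℕ → ℝ) (n Y : ℕ) : ∑ m ∈ Ioc n (n + Y), f m = ∑ h ∈ Icc 1 Y, f (n + h) := by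
  apply sum_bij (fun m _ => m - n)
  · intro m hm
    rw [mem_Ioc] at hm
    rw [mem_Icc]
    omega
  · intro a ha b hb hab
    rw [mem_Ioc] at ha hb
    omega
  · intro b hb
    rw [mem_Icc] at hb
    exact ⟨n + b, by rw [mem_Ioc]; omega, by omega⟩
  · intro m hm
    rw [mem_Ioc] at hm
    congr 1
    omega

set_option maxHeartbeats 4000000 in
/-- irregular windows -/
theorem irr (θ a σ : ℝ) (hθ : 0 < θ) (ha : 0 < a) (hσ : σ = 1 ∨ σ = -1) : ∃ δ : ℝ, 0 < δ ∧ δ ≤ 1 ∧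
    ∀ (T : ℕ → ℕ), Monotone T → Small T → ∀ᶠ x : ℕ in atTop, (Real.log x) ^ θ ≤ T x →
      ∀ y : ℝ, (Real.log x) ^ a ≤ y → y ≤ 2 * (Real.log x) ^ a →
        ∃ n : ℕ, x < n ∧ n ≤ 2 * x ∧ δ * y ≤ σ * (∑ m ∈ Ioc n (n + ⌊y⌋₊), fT T m - y) := by
  classical
  obtain ⟨κ, δ, hκ, hδ, hδ1, H⟩ := cnt2 θ a σ hθ ha hσ
  refine ⟨δ, hδ, hδ1, fun T hT hTs => ?_⟩
  obtain ⟨R, hR, hRδ⟩ := exists_R (δ / 4) (by positivity)
  have hlog : Tendsto (fun x : ℕ => Real.log x) atTop atTop := tlog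
  have E1 := hlog.eventually (H (1 / 4) (by positivity))
  have E2 : ∀ᶠ x : ℕ in atTop, (2 : ℝ) ≤ (Real.log x) ^ κ :=
    ((tendsto_rpow_atTop hκ).comp hlog).eventually_ge_atTop _
  have E3 := T_small T hTs (8 * R + 18) (by omega) (1 / 4) (by norm_num)
  have E4 : ∀ᶠ x : ℕ in atTop, 8 / δ ≤ (x : ℝ) ^ (1 / 4 : ℝ) :=
    ((tendsto_rpow_atTop (by norm_num)).comp tendsto_natCast_atTop_atTop).eventually_ge_atTop _
  have E6 : ∀ᶠ x : ℕ in atTop, 2 * (Real.log x) ^ a ≤ x := by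
    have := (isLittleO_log_rpow_rpow_atTop a (by norm_num : (0 : ℝ) < 1)).bound (show (0 : ℝ) < 1 / 2 by norm_num)
    filter_upwards [tendsto_natCast_atTop_atTop.eventually this, eventually_ge_atTop 1] with x hx hx1
    rw [Real.rpow_one, Real.norm_eq_abs, Real.norm_eq_abs, abs_of_nonneg (Nat.cast_nonneg x : (0 : ℝ) ≤ (x : ℝ))] at hx
    have := (le_abs_self _).trans hx
    linarith
  filter_upwards [E1, E2, E3, E4, E6, hlog.eventually_ge_atTop 1, eventually_ge_atTop 1] with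
    x g1 g2 g3 g4 g6 g7 g8 g9 y hy1 hy2
  obtain ⟨P, hP1, hP2, hP4, hP3⟩ := g1
  have hx1 : (1 : ℝ) ≤ x := by exact_mod_cast g8
  have hx0 : (0 : ℝ) < x := by linarith
  obtain ⟨L, hL⟩ : ∃ L, L = Real.log x := ⟨_, rfl⟩
  rw [← hL] at g2 g6 g7 g9 hP1 hP2 hP3 hy1 hy2
  have hL0 : 0 < L := by linarith
  have hPp : ∀ p ∈ P, p.Prime := fun p hp => (hP1 p hp).1
  obtain ⟨B, hB⟩ : ∃ B, B = ∏ p ∈ P, (1 - 1 / (p : ℝ)) := ⟨_, rfl⟩
  have hBpos : 0 < B := by rw [hB]; exact prod_pos' hPp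
  rw [← hB] at hP4
  have hy0 : 0 < y := lt_of_lt_of_le (Real.rpow_pos_of_pos hL0 _) hy1
  obtain ⟨Y, hY⟩ : ∃ Y, Y = ⌊y⌋₊ := ⟨_, rfl⟩
  rw [← hY]
  have hYy : (Y : ℝ) ≤ y := by rw [hY]; exact Nat.floor_le hy0.le
  -- the density
  have hrel : 2 * δ ≤ σ * (rel P y - 1) := hP3 y hy1 (hy2.trans (by
    rw [Real.rpow_add hL0, mul_comm]
    exact mul_le_mul_of_nonneg_left g2 (Real.rpow_nonneg hL0.le _)))
  obtain ⟨r, hr⟩ : ∃ r, r = rel P y := ⟨_, rfl⟩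
  rw [← hr] at hrel
  have hV : (V P Y : ℝ) = r * (y * B) := by
    have h2 : rel P y = (V P Y : ℝ) / (y * B) := by rw [hY, hB]; rfl
    rw [hr, h2]
    field_simp
  have hV2 : (V P Y : ℝ) ≤ y := by
    refine le_trans ?_ hYy
    unfold V
    exact_mod_cast (card_filter_le _ _).trans (by rw [Nat.card_Icc]; omega)
  obtain ⟨M, hM⟩ : ∃ M, M = ∏ p ∈ P, p := ⟨_, rfl⟩
  rw [← hM] at hP2
  have hMpos : 0 < M := by
    rw [hM]
    exact prod_pos fun p hp => (hPp p hp).pos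
  have hMx : (M : ℝ) ≤ (x : ℝ) ^ (1 / 4 : ℝ) := by
    rw [Real.rpow_def_of_pos hx0, ← hL, mul_comm]
    exact hP2
  obtain ⟨K, hK⟩ : ∃ K, K = x / M := ⟨_, rfl⟩
  have hKM : M * K ≤ x := by rw [hK]; exact Nat.mul_div_le x M
  have hKM2 : x < M * (K + 1) := by rw [hK]; exact Nat.lt_mul_div_succ x hMpos
  have hx14' : 1 ≤ (x : ℝ) ^ (1 / 4 : ℝ) := Real.one_le_rpow hx1 (by norm_num)
  have hKx : (x : ℝ) ^ (3 / 4 : ℝ) ≤ K + 1 := by
    have h1 : (x : ℝ) ≤ M * (K + 1) := by exact_mod_cast hKM2.le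
    have h2 : (x : ℝ) = (x : ℝ) ^ (1 / 4 : ℝ) * (x : ℝ) ^ (3 / 4 : ℝ) := by
      rw [← Real.rpow_add hx0]; norm_num
    have h3 : 0 < (x : ℝ) ^ (1 / 4 : ℝ) := by linarith
    have h4 : (x : ℝ) ^ (1 / 4 : ℝ) * (x : ℝ) ^ (3 / 4 : ℝ) ≤ (x : ℝ) ^ (1 / 4 : ℝ) * (K + 1) := by
      rw [← h2]
      refine h1.trans ?_
      gcongr
    exact le_of_mul_le_mul_left h4 h3
  have h8δ : 8 ≤ 8 / δ := by
    rw [le_div_iff₀ hδ]; linarith
  have hx34 : (8 / δ) * (x : ℝ) ^ (1 / 4 : ℝ) ≤ (x : ℝ) ^ (3 / 4 : ℝ) := by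
    have e1 : (x : ℝ) ^ (1 / 4 : ℝ) * (x : ℝ) ^ (1 / 4 : ℝ) * (x : ℝ) ^ (1 / 4 : ℝ) = (x : ℝ) ^ (3 / 4 : ℝ) := by
      rw [← Real.rpow_add hx0, ← Real.rpow_add hx0]; norm_num
    rw [← e1]
    calc (8 / δ) * (x : ℝ) ^ (1 / 4 : ℝ) ≤ (x : ℝ) ^ (1 / 4 : ℝ) * (x : ℝ) ^ (1 / 4 : ℝ) := by gcongr
      _ ≤ _ := le_mul_of_one_le_right (by positivity) hx14'
  have hK2 : (x : ℝ) ^ (3 / 4 : ℝ) ≤ 2 * K := by nlinarith
  have hK0 : (0 : ℝ) < K := by
    have : 0 < (x : ℝ) ^ (3 / 4 : ℝ) := Real.rpow_pos_of_pos hx0 _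
    linarith
  -- the error
  have herr : ((T (3 * x) : ℝ) + 2) ^ (8 * R + 18) ≤ δ / 2 * K := by
    have h0 : ((T (3 * x) : ℝ) + 2) ^ (8 * R + 18) ≤ ((T (4 * x) : ℝ) + 2) ^ (8 * R + 18) := by
      apply pow_le_pow_left₀ (by positivity)
      have : (T (3 * x) : ℝ) ≤ T (4 * x) := by exact_mod_cast hT (by omega)
      linarith
    have h1 : (x : ℝ) ^ (1 / 4 : ℝ) ≤ δ / 8 * (x : ℝ) ^ (3 / 4 : ℝ) := by
      have h2 : (8 / δ) * (x : ℝ) ^ (1 / 4 : ℝ) * (δ / 8) ≤ (x : ℝ) ^ (3 / 4 : ℝ) * (δ / 8) := by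
        gcongr
      have h3 : (8 / δ) * (x : ℝ) ^ (1 / 4 : ℝ) * (δ / 8) = (x : ℝ) ^ (1 / 4 : ℝ) := by field_simp
      linarith
    have h5 : δ / 8 * (x : ℝ) ^ (3 / 4 : ℝ) ≤ δ / 8 * (2 * K) := mul_le_mul_of_nonneg_left hK2 (by positivity)
    have h6 : 0 ≤ δ * K := by positivity
    linarith
  have hPx : ∀ p ∈ P, p ≤ T x := by
    intro p hp
    have := ((hP1 p hp).2).trans g9
    exact_mod_cast this
  have hJ : ∀ j, K < j → x ≤ (∏ q ∈ P, q) * j := by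
    intro j hj
    rw [← hM]
    have : M * (K + 1) ≤ M * j := Nat.mul_le_mul_left M hj
    omega
  have hYx : Y ≤ x := by
    have : (Y : ℝ) ≤ x := hYy.trans (hy2.trans g6)
    exact_mod_cast this
  -- the total
  have htot : |∑ j ∈ Ioc K (K + K), ∑ h ∈ Icc 1 Y, fT T (M * j + h) - r * y * K| ≤ δ * (y * K) := by
    rw [sum_comm]
    have h1 : ∀ h ∈ Icc 1 Y, |∑ j ∈ Ioc K (K + K), fT T (M * j + h) - (if ∀ p ∈ P, ¬ p ∣ h then B⁻¹ * K else 0)| ≤
        if ∀ p ∈ P, ¬ p ∣ h then (δ / 4 * (B⁻¹ * K) + δ / 2 * K) else 0 := by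
      intro h hh
      rw [mem_Icc] at hh
      have h2 := column2 R hR T hT P hPp x K K h (T (3 * x)) hPx hJ (by
        rw [← hM]
        apply hT
        have : M * (K + K) = M * K + M * K := by ring
        omega)
      rw [← hM, ← hB] at h2
      refine h2.trans ?_
      split_ifs
      · have h3 : 2 ^ 25 * (1 / 2) ^ (2 * R) * (B⁻¹ * K) ≤ δ / 4 * (B⁻¹ * K) := by
          gcongr
        linarith
      · exact le_rfl
    have h2 : (((Icc 1 Y).filter (fun h => ∀ p ∈ P, ¬ p ∣ h)).card : ℝ) = V P Y := rfl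
    have h3 : ∑ h ∈ Icc 1 Y, (if ∀ p ∈ P, ¬ p ∣ h then B⁻¹ * K else 0) = r * y * K := by
      rw [← sum_filter, sum_const, nsmul_eq_mul, h2, hV]
      field_simp
    have h4 : ∑ h ∈ Icc 1 Y, (if ∀ p ∈ P, ¬ p ∣ h then (δ / 4 * (B⁻¹ * K) + δ / 2 * K) else 0) ≤ δ * (y * K) := by
      rw [← sum_filter, sum_const, nsmul_eq_mul, h2]
      have e1 : B⁻¹ ≤ 2 := by
        rw [inv_le_comm₀ hBpos (by norm_num)]; linarith
      have e2 : δ / 4 * (B⁻¹ * K) + δ / 2 * K ≤ δ * K := by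
        have : B⁻¹ * K ≤ 2 * K := mul_le_mul_of_nonneg_right e1 hK0.le
        nlinarith
      calc (V P Y : ℝ) * (δ / 4 * (B⁻¹ * K) + δ / 2 * K) ≤ y * (δ * K) :=
            mul_le_mul hV2 e2 (by positivity) hy0.le
        _ = _ := by ring
    rw [← h3, ← sum_sub_distrib]
    refine (abs_sum_le_sum_abs _ _).trans ((sum_le_sum h1).trans h4)
  -- one window
  have hsum : ∑ j ∈ Ioc K (K + K), σ * (∑ h ∈ Icc 1 Y, fT T (M * j + h) - y) =
      σ * (∑ j ∈ Ioc K (K + K), ∑ h ∈ Icc 1 Y, fT T (M * j + h) - r * y * K) + σ * (r - 1) * (y * K) := by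
    rw [← mul_sum, sum_sub_distrib, sum_const, Nat.card_Ioc, nsmul_eq_mul]
    have : K + K - K = K := by omega
    rw [this]
    ring
  have habs : |σ| = 1 := by rcases hσ with h | h <;> rw [h] <;> simp
  have hlow : δ * y * K ≤ ∑ j ∈ Ioc K (K + K), σ * (∑ h ∈ Icc 1 Y, fT T (M * j + h) - y) := by
    rw [hsum]
    have e1 : |σ * (∑ j ∈ Ioc K (K + K), ∑ h ∈ Icc 1 Y, fT T (M * j + h) - r * y * K)| ≤ δ * (y * K) := by
      rw [abs_mul, habs, one_mul]; exact htot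
    have e2 := (abs_le.1 e1).1
    have e3 : 2 * δ * (y * K) ≤ σ * (r - 1) * (y * K) := mul_le_mul_of_nonneg_right hrel (by positivity)
    linarith
  obtain ⟨j, hj, hjy⟩ : ∃ j ∈ Ioc K (K + K), δ * y ≤ σ * (∑ h ∈ Icc 1 Y, fT T (M * j + h) - y) := by
    by_contra hcon
    push Not at hcon
    have hne : (Ioc K (K + K)).Nonempty := by
      rw [nonempty_Ioc]
      have : 0 < K := by exact_mod_cast hK0
      omega
    have := sum_lt_sum_of_nonempty hne hcon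
    rw [sum_const, Nat.card_Ioc, nsmul_eq_mul] at this
    have e : K + K - K = K := by omega
    rw [e] at this
    linarith
  rw [mem_Ioc] at hj
  refine ⟨M * j, ?_, ?_, ?_⟩
  · have : M * (K + 1) ≤ M * j := Nat.mul_le_mul_left M hj.1
    omega
  · have : M * j ≤ M * (K + K) := Nat.mul_le_mul_left M hj.2
    have h4 : M * (K + K) = M * K + M * K := by ring
    omega
  · rw [shift_sum]
    exact hjy

end Pool.Agent.U462.Uni
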