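import Mathlib
import Pool.Agent.U462.Gap.Up
import Pool.Agent.R528.RM.BH

set_option autoImplicit false
set_option linter.unusedSectionVars false

/-! # Exponential moments of the number of elements of a window -/

open MeasureTheory Filter Set
open scoped ENNReal Topology

namespace Pool.Agent.U462.Uni

open Pool.Agent.R528.RM (dens WV dens_meas WV_meas pull_A dens01)

variable {Ω : Type} {m0 : MeasurableSpace Ω} {μ : Measure Ω} [IsProbabilityMeasure μ]
  {ℱ : Filtration ℕ m0} {A : ℕ → Set Ω}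

/-- the number of elements among `t + 1, ..., t + j` -/
noncomputable def ct (A : ℕ → Set Ω) (t j : ℕ) (ω : Ω) : ℝ :=
  ∑ r ∈ Finset.range j, (A (t + r + 1)).indicator (fun _ => (1 : ℝ)) ω

/-- one factor -/
noncomputable def fac (A V : ℕ → Set Ω) (s : ℝ) (n : ℕ) : Ω → ℝ :=
  (V n)ᶜ.indicator (fun ω => Real.exp (s * (A (n + 1)).indicator (fun _ => (1 : ℝ)) ω))

/-- the exponential of `s` times the number of elements, killed at a violation -/
noncomputable def XX (A V : ℕ → Set Ω) (s : ℝ) (t j : ℕ) : Ω → ℝ := ∏ r ∈ Finset.range j, fac A V s (t + r)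

lemma XX_succ (V : ℕ → Set Ω) (s : ℝ) (t j : ℕ) : XX A V s t (j + 1) = XX A V s t j * fac A V s (t + j) := by
  unfold XX
  rw [Finset.prod_range_succ]

lemma fac_meas (hA : ∀ n, MeasurableSet[ℱ n] (A n)) {V : ℕ → Set Ω} (hV : ∀ n, MeasurableSet[ℱ n] (V n)) (s : ℝ) (n k : ℕ)
    (h : n + 1 ≤ k) : StronglyMeasurable[ℱ k] (fac A V s n) := by
  have h1 : StronglyMeasurable[ℱ k] ((A (n + 1)).indicator (fun _ => (1 : ℝ))) :=
    (@stronglyMeasurable_const _ _ (ℱ k) _ _).indicator (ℱ.mono h _ (hA (n + 1)))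
  have h2 : StronglyMeasurable[ℱ k] (fun ω => Real.exp (s * (A (n + 1)).indicator (fun _ => (1 : ℝ)) ω)) :=
    Real.continuous_exp.comp_stronglyMeasurable (h1.const_mul s)
  exact h2.indicator (ℱ.mono (by omega) _ (hV n).compl)

lemma XX_meas (hA : ∀ n, MeasurableSet[ℱ n] (A n)) {V : ℕ → Set Ω} (hV : ∀ n, MeasurableSet[ℱ n] (V n)) (s : ℝ) (t j : ℕ) :
    StronglyMeasurable[ℱ (t + j)] (XX A V s t j) := by
  unfold XX
  refine Finset.stronglyMeasurable_prod _ fun r hr => ?_
  exact fac_meas hA hV s _ _ (by have := Finset.mem_range.1 hr; omega)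

lemma fac_bd (V : ℕ → Set Ω) (s : ℝ) (n : ℕ) (ω : Ω) : 0 ≤ fac A V s n ω ∧ fac A V s n ω ≤ Real.exp |s| := by
  unfold fac
  by_cases h : ω ∈ (V n)ᶜ
  · rw [Set.indicator_of_mem h]
    refine ⟨(Real.exp_pos _).le, Real.exp_le_exp.2 ?_⟩
    by_cases h2 : ω ∈ A (n + 1)
    · rw [Set.indicator_of_mem h2, mul_one]; exact le_abs_self s
    · rw [Set.indicator_of_notMem h2, mul_zero]; exact abs_nonneg s
  · rw [Set.indicator_of_notMem h]
    exact ⟨le_rfl, (Real.exp_pos _).le⟩

lemma XX_bd (V : ℕ → Set Ω) (s : ℝ) (t j : ℕ) (ω : Ω) : 0 ≤ XX A V s t j ω ∧ XX A V s t j ω ≤ Real.exp (|s| * j) := by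
  induction j with
  | zero => simp [XX]
  | succ j ih =>
    rw [XX_succ, Pi.mul_apply]
    have h1 := fac_bd (A := A) V s (t + j) ω
    refine ⟨mul_nonneg ih.1 h1.1, ?_⟩
    calc XX A V s t j ω * fac A V s (t + j) ω ≤ Real.exp (|s| * j) * Real.exp |s| :=
          mul_le_mul ih.2 h1.2 h1.1 (Real.exp_pos _).le
      _ = _ := by rw [← Real.exp_add]; congr 1; push_cast; ring

lemma XX_int (hA : ∀ n, MeasurableSet[ℱ n] (A n)) {V : ℕ → Set Ω} (hV : ∀ n, MeasurableSet[ℱ n] (V n)) (s : ℝ) (t j : ℕ) :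
    Integrable (XX A V s t j) μ := by
  refine Integrable.of_bound (((XX_meas hA hV s t j).mono (ℱ.le _)).aestronglyMeasurable) (Real.exp (|s| * j)) ?_
  refine Eventually.of_forall fun ω => ?_
  rw [Real.norm_eq_abs, abs_of_nonneg (XX_bd V s t j ω).1]
  exact (XX_bd V s t j ω).2

/-- the exponential moment -/
theorem mgf (hA : ∀ n, MeasurableSet[ℱ n] (A n)) {V : ℕ → Set Ω} (hV : ∀ n, MeasurableSet[ℱ n] (V n)) (s : ℝ)
    (b : ℕ → ℝ) (t j : ℕ) (h0 : ∀ n, t ≤ n → n < t + j → 0 ≤ 1 + (Real.exp s - 1) * b (n + 1))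
    (hb : ∀ n, t ≤ n → n < t + j → ∀ ω, ω ∉ V n → (Real.exp s - 1) * dens μ ℱ A n ω ≤ (Real.exp s - 1) * b (n + 1)) :
    ∫ ω, XX A V s t j ω ∂μ ≤ Real.exp ((Real.exp s - 1) * ∑ m ∈ Finset.Ioc t (t + j), b m) := by
  induction j with
  | zero => simp [XX]
  | succ j ih =>
    have ih' := ih (fun n h1 h2 => h0 n h1 (by omega)) (fun n h1 h2 => hb n h1 (by omega))
    set c := Real.exp s - 1 with hc
    set I : Ω → ℝ := (A (t + j + 1)).indicator (fun _ => (1 : ℝ)) with hI
    set D := dens μ ℱ A (t + j) with hD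
    set f : Ω → ℝ := (V (t + j))ᶜ.indicator (XX A V s t j) with hf
    have hfm : StronglyMeasurable[ℱ (t + j)] f := (XX_meas hA hV s t j).indicator (hV (t + j)).compl
    have hfb : ∀ ω, 0 ≤ f ω ∧ f ω ≤ XX A V s t j ω := by
      intro ω
      simp only [hf]
      by_cases h : ω ∈ (V (t + j))ᶜ
      · rw [Set.indicator_of_mem h]; exact ⟨(XX_bd V s t j ω).1, le_rfl⟩
      · rw [Set.indicator_of_notMem h]; exact ⟨le_rfl, (XX_bd V s t j ω).1⟩
    have hfn : ∀ᵐ ω ∂μ, ‖f ω‖ ≤ Real.exp (|s| * j) := by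
      refine Eventually.of_forall fun ω => ?_
      rw [Real.norm_eq_abs, abs_of_nonneg (hfb ω).1]
      exact (hfb ω).2.trans (XX_bd V s t j ω).2
    have hpull := pull_A (μ := μ) hA (t + j) hfm (Real.exp (|s| * j)) hfn
    have h01 := dens01 (μ := μ) (ℱ := ℱ) hA (t + j)
    have hstep : ∀ ω, XX A V s t (j + 1) ω = f ω + c * (f ω * I ω) := by
      intro ω
      rw [XX_succ, Pi.mul_apply]
      simp only [hf, fac]
      by_cases h : ω ∈ (V (t + j))ᶜ
      · rw [Set.indicator_of_mem h, Set.indicator_of_mem h]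
        by_cases h2 : ω ∈ A (t + j + 1)
        · have : I ω = 1 := by simp only [hI]; rw [Set.indicator_of_mem h2]
          have e2 : (A (t + j + 1)).indicator (fun _ => (1 : ℝ)) ω = 1 := Set.indicator_of_mem h2 _
          rw [this, e2, hc]; ring_nf
        · have : I ω = 0 := by simp only [hI]; rw [Set.indicator_of_notMem h2]
          have e2 : (A (t + j + 1)).indicator (fun _ => (1 : ℝ)) ω = 0 := Set.indicator_of_notMem h2 _
          rw [this, e2, mul_zero, Real.exp_zero]; ring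
      · rw [Set.indicator_of_notMem h, Set.indicator_of_notMem h]; ring
    have hfam : AEStronglyMeasurable f μ := (hfm.mono (ℱ.le _)).aestronglyMeasurable
    have hIam : AEStronglyMeasurable I μ :=
      ((stronglyMeasurable_const.indicator (ℱ.le _ _ (hA (t + j + 1))))).aestronglyMeasurable
    have hDam : AEStronglyMeasurable D μ := ((dens_meas (t + j)).mono (ℱ.le _)).aestronglyMeasurable
    have i0 : Integrable f μ := Integrable.of_bound hfam _ hfn
    have i1 : Integrable (fun ω => f ω * I ω) μ := by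
      refine Integrable.of_bound (hfam.mul hIam) (Real.exp (|s| * j)) ?_
      filter_upwards [hfn] with ω hω
      rw [norm_mul]
      have hI1 : ‖I ω‖ ≤ 1 := by
        rw [Real.norm_eq_abs, abs_of_nonneg (indicator_nonneg (fun _ _ => zero_le_one) _)]
        exact indicator_le_self' (fun _ _ => zero_le_one) ω
      calc _ ≤ Real.exp (|s| * j) * 1 := mul_le_mul hω hI1 (norm_nonneg _) (Real.exp_pos _).le
        _ = _ := mul_one _
    have i2 : Integrable (fun ω => f ω * D ω) μ := by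
      refine Integrable.of_bound (hfam.mul hDam) (Real.exp (|s| * j)) ?_
      filter_upwards [hfn, h01] with ω hω h2
      rw [norm_mul]
      have hD1 : ‖D ω‖ ≤ 1 := by
        rw [Real.norm_eq_abs, abs_of_nonneg h2.1]
        exact h2.2
      calc _ ≤ Real.exp (|s| * j) * 1 := mul_le_mul hω hD1 (norm_nonneg _) (Real.exp_pos _).le
        _ = _ := mul_one _
    have h4 : ∫ ω, XX A V s t (j + 1) ω ∂μ = ∫ ω, (f ω + c * (f ω * D ω)) ∂μ := by
      rw [integral_congr_ae (Eventually.of_forall hstep), integral_add i0 (i1.const_mul c), integral_const_mul, hpull,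
        integral_add i0 (i2.const_mul c), integral_const_mul]
    have hq := h0 (t + j) (by omega) (by omega)
    have h5 : ∫ ω, (f ω + c * (f ω * D ω)) ∂μ ≤ ∫ ω, (1 + c * b (t + j + 1)) * XX A V s t j ω ∂μ := by
      refine integral_mono (i0.add (i2.const_mul c)) ((XX_int hA hV s t j).const_mul _) ?_
      intro ω
      simp only
      by_cases h : ω ∈ (V (t + j))ᶜ
      · have e1 : f ω = XX A V s t j ω := by simp only [hf]; rw [Set.indicator_of_mem h]
        rw [e1]
        have h6 := hb (t + j) (by omega) (by omega) ω h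
        have h7 := mul_le_mul_of_nonneg_left h6 (XX_bd (A := A) V s t j ω).1
        linarith
      · have e1 : f ω = 0 := by simp only [hf]; rw [Set.indicator_of_notMem h]
        rw [e1]
        have := mul_nonneg hq (XX_bd (A := A) V s t j ω).1
        linarith
    rw [h4]
    refine h5.trans ?_
    rw [integral_const_mul]
    have h8 : 1 + c * b (t + j + 1) ≤ Real.exp (c * b (t + j + 1)) := by
      have := Real.add_one_le_exp (c * b (t + j + 1))
      linarith
    have h9 : (0 : ℝ) ≤ ∫ ω, XX A V s t j ω ∂μ := integral_nonneg fun ω => (XX_bd V s t j ω).1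
    calc (1 + c * b (t + j + 1)) * ∫ ω, XX A V s t j ω ∂μ
        ≤ Real.exp (c * b (t + j + 1)) * Real.exp (c * ∑ m ∈ Finset.Ioc t (t + j), b m) :=
          mul_le_mul h8 ih' h9 (Real.exp_pos _).le
      _ = _ := by
          rw [← Real.exp_add]
          congr 1
          have e3 : t + (j + 1) = t + j + 1 := by ring
          rw [e3, ← Finset.insert_Ioc_right_eq_Ioc_add_one (by omega : t ≤ t + j), Finset.sum_insert (by simp)]
          ring

/-- the tail bound -/
theorem tail (hA : ∀ n, MeasurableSet[ℱ n] (A n)) {V : ℕ → Set Ω} (hV : ∀ n, MeasurableSet[ℱ n] (V n)) (s κ : ℝ)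
    (b : ℕ → ℝ) (t j : ℕ) (h0 : ∀ n, t ≤ n → n < t + j → 0 ≤ 1 + (Real.exp s - 1) * b (n + 1))
    (hb : ∀ n, t ≤ n → n < t + j → ∀ ω, ω ∉ V n → (Real.exp s - 1) * dens μ ℱ A n ω ≤ (Real.exp s - 1) * b (n + 1)) :
    μ.real ({ω | κ ≤ s * ct A t j ω} \ WV V t j) ≤ Real.exp (-κ + (Real.exp s - 1) * ∑ m ∈ Finset.Ioc t (t + j), b m) := by
  have h1 := mgf (μ := μ) hA hV s b t j h0 hb
  have hX : ∀ ω, ω ∉ WV V t j → XX A V s t j ω = Real.exp (s * ct A t j ω) := by
    intro ω hω
    unfold XX ct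
    rw [Finset.prod_apply, Finset.mul_sum, Real.exp_sum]
    refine Finset.prod_congr rfl fun r hr => ?_
    unfold fac
    rw [Set.indicator_of_mem]
    intro h2
    exact hω ⟨t + r, by omega, by have := Finset.mem_range.1 hr; omega, h2⟩
  have h2 := mul_meas_ge_le_integral_of_nonneg (μ := μ) (Eventually.of_forall fun ω => (XX_bd (A := A) V s t j ω).1)
    (XX_int hA hV s t j) (Real.exp κ)
  have h3 : μ.real ({ω | κ ≤ s * ct A t j ω} \ WV V t j) ≤ μ.real {ω | Real.exp κ ≤ XX A V s t j ω} := by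
    apply measureReal_mono _ (measure_ne_top _ _)
    intro ω hω
    change Real.exp κ ≤ XX A V s t j ω
    rw [hX ω hω.2]
    exact Real.exp_le_exp.2 hω.1
  rw [Real.exp_add, Real.exp_neg, inv_mul_eq_div, le_div_iff₀ (Real.exp_pos _), mul_comm]
  exact (mul_le_mul_of_nonneg_left h3 (Real.exp_pos _).le).trans (h2.trans h1)

end Pool.Agent.U462.Uni
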