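import Mathlib
import Pool.Agent.U462.Uni.Mgf

set_option autoImplicit false
set_option linter.unusedSectionVars false

/-! # The law of large numbers in all windows -/

open MeasureTheory Filter Set
open scoped ENNReal Topology

namespace Pool.Agent.U462.Uni

open Pool.Agent.R528.RM (dens WV dens_meas WV_meas)
open Pool.Agent.U462.Gap (Model VD VD_meas no_VD bc)

variable {Ω : Type} {m0 : MeasurableSpace Ω} {μ : Measure Ω} [IsProbabilityMeasure μ]
  {ℱ : Filtration ℕ m0} {A : ℕ → Set Ω} {a : ℕ → ℝ}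

/-- the mass of `(t, t + j]` -/
noncomputable def mss (a : ℕ → ℝ) (t j : ℕ) : ℝ := ∑ m ∈ Finset.Ioc t (t + j), a m

lemma mss_nonneg (ha : ∀ n, 0 ≤ a n) (t j : ℕ) : 0 ≤ mss a t j := Finset.sum_nonneg fun m _ => ha m

/-- upper tail -/
lemma upper (hA : ∀ n, MeasurableSet[ℱ n] (A n)) (ha : ∀ n, 0 ≤ a n) {ε : ℝ} (hε : 0 < ε) (hε1 : ε ≤ 1) (t j : ℕ) {M : ℝ}
    (hM : mss a t j ≤ M) :
    μ.real ({ω | mss a t j + ε * M ≤ ct A t j ω} \ WV (VD μ ℱ A a (ε / 4)) t j) ≤ Real.exp (-(ε ^ 2 * M / 10)) := by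
  have hM0 : 0 ≤ M := (mss_nonneg ha t j).trans hM
  have hm0 := mss_nonneg ha t j
  obtain ⟨s, hs⟩ : ∃ s, s = ε / 4 := ⟨_, rfl⟩
  have hs0 : 0 < s := by rw [hs]; positivity
  have hs1 : s ≤ 1 / 4 := by rw [hs]; linarith
  have he0 : 0 ≤ Real.exp s - 1 := by have := Real.add_one_le_exp s; linarith
  have he1 : Real.exp s - 1 ≤ s + s ^ 2 := by
    have := Real.abs_exp_sub_one_sub_id_le (x := s) (by rw [abs_of_pos hs0]; linarith)
    have := (abs_le.1 this).2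
    linarith
  have h1 := tail (μ := μ) hA (V := VD μ ℱ A a (ε / 4)) (fun n => VD_meas _ n) s (s * (mss a t j + ε * M))
    (fun m => (1 + ε / 4) * a m) t j (fun n _ _ => by have := ha (n + 1); positivity)
    (fun n _ _ ω hω => by
      apply mul_le_mul_of_nonneg_left _ he0
      simp only [VD, mem_ofPred_eq, not_not] at hω
      have := (abs_le.1 hω).2
      linarith)
  have h2 : {ω | mss a t j + ε * M ≤ ct A t j ω} ⊆ {ω | s * (mss a t j + ε * M) ≤ s * ct A t j ω} := by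
    intro ω hω
    exact mul_le_mul_of_nonneg_left hω hs0.le
  refine (measureReal_mono (sdiff_subset_sdiff_left h2) (measure_ne_top _ _)).trans (h1.trans ?_)
  apply Real.exp_le_exp.2
  rw [← Finset.mul_sum]
  change -(s * (mss a t j + ε * M)) + (Real.exp s - 1) * ((1 + ε / 4) * mss a t j) ≤ _
  have h3 : (Real.exp s - 1) * ((1 + ε / 4) * mss a t j) ≤ (s + s ^ 2) * ((1 + ε / 4) * mss a t j) :=
    mul_le_mul_of_nonneg_right he1 (by positivity)
  have h4 : (s + s ^ 2) * ((1 + ε / 4) * mss a t j) = s * mss a t j + (s ^ 2 + s * (ε / 4) + s ^ 2 * (ε / 4)) * mss a t j := by ring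
  have h5 : (s ^ 2 + s * (ε / 4) + s ^ 2 * (ε / 4)) * mss a t j ≤ (s ^ 2 + s * (ε / 4) + s ^ 2 * (ε / 4)) * M :=
    mul_le_mul_of_nonneg_left hM (by positivity)
  have h6 : s ^ 2 + s * (ε / 4) + s ^ 2 * (ε / 4) ≤ 9 / 64 * ε ^ 2 := by
    rw [hs]; nlinarith [mul_pos hε hε]
  have h7 := mul_le_mul_of_nonneg_right h6 hM0
  have h8 : s * (ε * M) = ε ^ 2 * M / 4 := by rw [hs]; ring
  nlinarith [mul_nonneg (sq_nonneg ε) hM0]

/-- lower tail -/
lemma lower (hA : ∀ n, MeasurableSet[ℱ n] (A n)) (ha : ∀ n, 0 ≤ a n) {ε : ℝ} (hε : 0 < ε) (hε1 : ε ≤ 1) (t j : ℕ) {M : ℝ}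
    (hM : mss a t j ≤ M) (ha1 : ∀ n, t ≤ n → a n ≤ 1) :
    μ.real ({ω | ct A t j ω ≤ mss a t j - ε * M} \ WV (VD μ ℱ A a (ε / 4)) t j) ≤ Real.exp (-(ε ^ 2 * M / 10)) := by
  have hM0 : 0 ≤ M := (mss_nonneg ha t j).trans hM
  have hm0 := mss_nonneg ha t j
  obtain ⟨s, hs⟩ : ∃ s, s = ε / 4 := ⟨_, rfl⟩
  have hs0 : 0 < s := by rw [hs]; positivity
  have hs1 : s ≤ 1 / 4 := by rw [hs]; linarith
  have he0 : Real.exp (-s) - 1 ≤ 0 := by
    have : Real.exp (-s) ≤ 1 := Real.exp_le_one_iff.2 (by linarith)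
    linarith
  have he1 : Real.exp (-s) - 1 ≤ -s + s ^ 2 := by
    have := Real.abs_exp_sub_one_sub_id_le (x := -s) (by rw [abs_neg, abs_of_pos hs0]; linarith)
    have := (abs_le.1 this).2
    rw [neg_sq] at this
    linarith
  have h1 := tail (μ := μ) hA (V := VD μ ℱ A a (ε / 4)) (fun n => VD_meas _ n) (-s) (-s * (mss a t j - ε * M))
    (fun m => (1 - ε / 4) * a m) t j (fun n h1 _ => by
      have h2 := ha (n + 1)
      have h3 := ha1 (n + 1) (by omega)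
      have h4 : (1 - ε / 4) * a (n + 1) ≤ 1 := by nlinarith
      have h5 : 0 ≤ (1 - ε / 4) * a (n + 1) := mul_nonneg (by linarith) h2
      have h6 : -1 ≤ Real.exp (-s) - 1 := by have := Real.exp_pos (-s); linarith
      nlinarith)
    (fun n _ _ ω hω => by
      apply mul_le_mul_of_nonpos_left _ he0
      simp only [VD, mem_ofPred_eq, not_not] at hω
      have := (abs_le.1 hω).1
      linarith)
  have h2 : {ω | ct A t j ω ≤ mss a t j - ε * M} ⊆ {ω | -s * (mss a t j - ε * M) ≤ -s * ct A t j ω} := by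
    intro ω hω
    have hω' : ct A t j ω ≤ mss a t j - ε * M := hω
    change -s * (mss a t j - ε * M) ≤ -s * ct A t j ω
    nlinarith
  refine (measureReal_mono (sdiff_subset_sdiff_left h2) (measure_ne_top _ _)).trans (h1.trans ?_)
  apply Real.exp_le_exp.2
  rw [← Finset.mul_sum]
  change -(-s * (mss a t j - ε * M)) + (Real.exp (-s) - 1) * ((1 - ε / 4) * mss a t j) ≤ _
  have h3 : (Real.exp (-s) - 1) * ((1 - ε / 4) * mss a t j) ≤ (-s + s ^ 2) * ((1 - ε / 4) * mss a t j) :=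
    mul_le_mul_of_nonneg_right he1 (mul_nonneg (by linarith) hm0)
  have h4 : (-s + s ^ 2) * ((1 - ε / 4) * mss a t j) ≤ - s * mss a t j + (s ^ 2 + s * (ε / 4)) * mss a t j := by
    have : 0 ≤ s ^ 2 * (ε / 4) * mss a t j := by positivity
    nlinarith
  have h5 : (s ^ 2 + s * (ε / 4)) * mss a t j ≤ (s ^ 2 + s * (ε / 4)) * M :=
    mul_le_mul_of_nonneg_left hM (by positivity)
  have h6 : s ^ 2 + s * (ε / 4) ≤ 1 / 8 * ε ^ 2 := by
    rw [hs]; nlinarith [mul_pos hε hε]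
  have h7 := mul_le_mul_of_nonneg_right h6 hM0
  have h8 : s * (ε * M) = ε ^ 2 * M / 4 := by rw [hs]; ring
  nlinarith [mul_nonneg (sq_nonneg ε) hM0]

/-- the law of large numbers, uniformly in all windows -/
theorem lln (h : Model μ ℱ A a) (ha : ∀ n, 0 ≤ a n) (ha0 : Tendsto a atTop (𝓝 0)) {ε : ℝ} (hε : 0 < ε) (hε1 : ε ≤ 1) :
    ∀ᵐ ω ∂μ, ∀ᶠ n : ℕ in atTop, ∀ j : ℕ, j ≤ n ^ 2 →
      |ct A n j ω - mss a n j| ≤ ε * max (mss a n j) (50 / ε ^ 2 * Real.log n) := by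
  obtain ⟨V, hVd⟩ : ∃ V, V = VD μ ℱ A a (ε / 4) := ⟨_, rfl⟩
  obtain ⟨M, hM⟩ : ∃ M : ℕ → ℕ → ℝ, M = fun n j => max (mss a n j) (50 / ε ^ 2 * Real.log n) := ⟨_, rfl⟩
  obtain ⟨Bad, hBad⟩ : ∃ Bad : ℕ → Set Ω, Bad = fun n => ⋃ j ∈ Finset.range (n ^ 2 + 1),
    (({ω | mss a n j + ε * M n j ≤ ct A n j ω} \ WV V n j) ∪ ({ω | ct A n j ω ≤ mss a n j - ε * M n j} \ WV V n j)) := ⟨_, rfl⟩
  obtain ⟨n₁, hn₁⟩ := eventually_atTop.1 (ha0.eventually (eventually_le_nhds (show (0 : ℝ) < 1 by norm_num)))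
  have hbc : ∀ᵐ ω ∂μ, ∀ᶠ n : ℕ in atTop, ω ∉ Bad n := by
    refine bc (b := fun n : ℕ => 4 * ((n : ℝ) ^ 3)⁻¹) ((Real.summable_nat_pow_inv.2 (by norm_num)).mul_left 4) ?_
    filter_upwards [eventually_ge_atTop n₁, eventually_ge_atTop 1] with n h1 h2
    have hn : (1 : ℝ) ≤ n := by exact_mod_cast h2
    have hn0 : (0 : ℝ) < n := by linarith
    have h3 : ∀ j, Real.exp (-(ε ^ 2 * M n j / 10)) ≤ ((n : ℝ) ^ 5)⁻¹ := by
      intro j
      have h4 : 50 / ε ^ 2 * Real.log n ≤ M n j := by rw [hM]; exact le_max_right _ _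
      have h5 : 5 * Real.log n ≤ ε ^ 2 * M n j / 10 := by
        have := mul_le_mul_of_nonneg_left h4 (sq_nonneg ε)
        have e : ε ^ 2 * (50 / ε ^ 2 * Real.log n) = 50 * Real.log n := by field_simp
        linarith
      calc Real.exp (-(ε ^ 2 * M n j / 10)) ≤ Real.exp (-(5 * Real.log n)) := Real.exp_le_exp.2 (by linarith)
        _ = ((n : ℝ) ^ 5)⁻¹ := by
            rw [Real.exp_neg]
            congr 1
            rw [show (5 : ℝ) * Real.log n = ((5 : ℕ) : ℝ) * Real.log n by norm_num, Real.exp_nat_mul, Real.exp_log hn0]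
    rw [hBad]
    refine (measureReal_biUnion_finset_le _ _).trans ?_
    have h4 : ∀ j ∈ Finset.range (n ^ 2 + 1), μ.real (({ω | mss a n j + ε * M n j ≤ ct A n j ω} \ WV V n j) ∪
        ({ω | ct A n j ω ≤ mss a n j - ε * M n j} \ WV V n j)) ≤ 2 * ((n : ℝ) ^ 5)⁻¹ := by
      intro j _
      have g0 : mss a n j ≤ M n j := by rw [hM]; exact le_max_left _ _
      have g1 := upper (μ := μ) h.adapted ha hε hε1 n j g0
      have g2 := lower (μ := μ) h.adapted ha hε hε1 n j g0 (fun m hm => hn₁ m (h1.trans hm))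
      rw [← hVd] at g1 g2
      refine (measureReal_union_le _ _).trans ?_
      linarith [h3 j]
    refine (Finset.sum_le_sum h4).trans ?_
    rw [Finset.sum_const, Finset.card_range, nsmul_eq_mul]
    push_cast
    have h5 : ((n : ℝ) ^ 2 + 1) ≤ 2 * (n : ℝ) ^ 2 := by nlinarith
    calc ((n : ℝ) ^ 2 + 1) * (2 * ((n : ℝ) ^ 5)⁻¹) ≤ (2 * (n : ℝ) ^ 2) * (2 * ((n : ℝ) ^ 5)⁻¹) :=
          mul_le_mul_of_nonneg_right h5 (by positivity)
      _ = 4 * ((n : ℝ) ^ 3)⁻¹ := by field_simp; ring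
  filter_upwards [hbc, no_VD h (show (0 : ℝ) < ε / 4 by positivity)] with ω g1 g2
  obtain ⟨n₀, hn₀⟩ := g2
  filter_upwards [g1, eventually_ge_atTop n₀] with n g3 g4 j hj
  rw [hBad] at g3
  simp only [mem_iUnion, not_exists] at g3
  have g5 := g3 j (Finset.mem_range.2 (by omega))
  have g6 : ω ∉ WV V n j := by
    rintro ⟨k, h6, _, h7⟩
    rw [hVd] at h7
    exact hn₀ k (by omega) h7
  simp only [mem_union, not_or, Set.mem_sdiff, mem_ofPred_eq, g6, not_false_eq_true, and_true, not_le] at g5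
  have g7 : M n j = max (mss a n j) (50 / ε ^ 2 * Real.log n) := by rw [hM]
  rw [← g7, abs_le]
  constructor <;> linarith [g5.1, g5.2]

end Pool.Agent.U462.Uni
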