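import Mathlib
import Pool.Agent.U462.Uni.Lln
import Pool.Agent.U462.Gap.Sieve

set_option autoImplicit false
set_option linter.unusedSectionVars false

/-! # The uniform law for the number of elements of windows in the sieved models -/

open MeasureTheory Filter Set
open scoped ENNReal Topology

namespace Pool.Agent.U462.Uni

open Pool.Agent.U462.Gap (Model aT fT aT_nonneg aT_tendsto fT_nonneg Small sum_window exists_R tlog)

/-- comparison of the mass of a window with the sum of the weights -/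
lemma mss_bounds (T : ℕ → ℕ) {n j : ℕ} (hn : 3 ≤ n) (hj : j ≤ 3 * n) :
    (∑ m ∈ Finset.Ioc n (n + j), fT T m) / (Real.log n + 2) ≤ mss (aT T) n j ∧
    mss (aT T) n j ≤ (∑ m ∈ Finset.Ioc n (n + j), fT T m) / Real.log n := by
  have hn' : (3 : ℝ) ≤ n := by exact_mod_cast hn
  have hL : 0 < Real.log n := Real.log_pos (by linarith)
  unfold mss
  rw [Finset.sum_div, Finset.sum_div]
  constructor
  · apply Finset.sum_le_sum
    intro m hm
    rw [Finset.mem_Ioc] at hm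
    unfold aT
    have h1 : (n : ℝ) ≤ m := by exact_mod_cast hm.1.le
    have h2 : (m : ℝ) ≤ 4 * n := by
      have : m ≤ 4 * n := by omega
      exact_mod_cast this
    have h3 : Real.log m ≤ Real.log n + 2 := by
      have h4 : Real.log m ≤ Real.log (4 * n) := Real.log_le_log (by linarith) h2
      rw [Real.log_mul (by norm_num) (by linarith)] at h4
      have h5 : Real.log 4 = 2 * Real.log 2 := by
        rw [show (4 : ℝ) = 2 ^ 2 by norm_num, Real.log_pow]; norm_num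
      have := Real.log_two_lt_d9
      linarith
    exact div_le_div_of_nonneg_left (fT_nonneg T m) (Real.log_pos (by linarith)) h3
  · apply Finset.sum_le_sum
    intro m hm
    rw [Finset.mem_Ioc] at hm
    unfold aT
    have h1 : (n : ℝ) ≤ m := by exact_mod_cast hm.1.le
    exact div_le_div_of_nonneg_left (fT_nonneg T m) hL (Real.log_le_log (by linarith) h1)

/-- the uniform law -/
theorem uni (ε : ℝ) (hε : 0 < ε) : ∃ (u : ℕ) (Λ : ℝ), 1 ≤ Λ ∧
    ∀ (Ω : Type) (m0 : MeasurableSpace Ω) (μ : Measure Ω) (_ : IsProbabilityMeasure μ)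
      (ℱ : Filtration ℕ m0) (A : ℕ → Set Ω) (T : ℕ → ℕ), Model μ ℱ A (aT T) → Monotone T → Small T →
      ∀ᵐ ω ∂μ, ∀ᶠ n : ℕ in atTop, ∀ j : ℕ, j ≤ 3 * n → Λ * Real.log n ^ 2 ≤ j → ((T (4 * n) : ℝ) + 2) ^ u ≤ j →
        |ct A n j ω - j / Real.log n| ≤ ε * (j / Real.log n) := by
  obtain ⟨ε₁, h1, h2, h3⟩ : ∃ ε₁ : ℝ, 0 < ε₁ ∧ ε₁ ≤ 1 ∧ 8 * ε₁ ≤ ε :=
    ⟨min 1 (ε / 8), lt_min one_pos (by positivity), min_le_left _ _, by have := min_le_right 1 (ε / 8); linarith⟩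
  obtain ⟨R, hR, hRε⟩ := exists_R ε₁ h1
  refine ⟨2 * (8 * R + 18), 50 / ε₁ ^ 2, ?_, ?_⟩
  · rw [le_div_iff₀ (by positivity)]
    nlinarith
  intro Ω m0 μ _ ℱ A T hM hT hTs
  have hlln := lln (μ := μ) hM (aT_nonneg T) (aT_tendsto T hTs) h1 h2
  filter_upwards [hlln] with ω hω
  filter_upwards [hω, eventually_ge_atTop 3, tlog.eventually_ge_atTop (2 / ε₁ + 1)] with n g1 g2 g3 j hj1 hj2 hj3
  have hn : (3 : ℝ) ≤ n := by exact_mod_cast g2
  obtain ⟨L, hL⟩ : ∃ L, L = Real.log (n : ℝ) := ⟨_, rfl⟩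
  rw [← hL] at g3 hj2 ⊢
  have he : 2 ≤ 2 / ε₁ := by
    rw [le_div_iff₀ h1]; linarith
  have hL0 : 0 < L := by linarith
  have hL1 : 2 / L ≤ ε₁ := by
    rw [div_le_iff₀ hL0]
    have := mul_le_mul_of_nonneg_left g3 h1.le
    have e : ε₁ * (2 / ε₁ + 1) = 2 + ε₁ := by field_simp
    linarith
  have hΛ : 50 / ε₁ ^ 2 * L ^ 2 ≤ j := hj2
  have hj0 : (1 / ε₁) ^ 2 ≤ (j : ℝ) := by
    have e1 : (1 / ε₁) ^ 2 ≤ 50 / ε₁ ^ 2 * L ^ 2 := by
      have : 1 ≤ L ^ 2 := by nlinarith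
      have h5 : (1 / ε₁) ^ 2 = 1 / ε₁ ^ 2 := by ring
      rw [h5]
      calc 1 / ε₁ ^ 2 ≤ 50 / ε₁ ^ 2 := by gcongr; norm_num
        _ ≤ 50 / ε₁ ^ 2 * L ^ 2 := le_mul_of_one_le_right (by positivity) this
    linarith
  have hjpos : (0 : ℝ) < j := lt_of_lt_of_le (by positivity) hj0
  -- the sieve
  have s1 := sum_window R hR T hT n j (T (4 * n)) (hT (by omega))
  have s2 : ((T (4 * n) : ℝ) + 2) ^ (8 * R + 18) ≤ ε₁ * j := by
    rw [mul_comm 2, pow_mul] at hj3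
    have e1 : (0 : ℝ) ≤ ((T (4 * n) : ℝ) + 2) ^ (8 * R + 18) := by positivity
    have e2 : ((T (4 * n) : ℝ) + 2) ^ (8 * R + 18) ≤ √(j : ℝ) := Real.le_sqrt_of_sq_le hj3
    have e3 : 1 / ε₁ ≤ √(j : ℝ) := Real.le_sqrt_of_sq_le hj0
    have e4 : √(j : ℝ) * √(j : ℝ) = j := Real.mul_self_sqrt hjpos.le
    have e5 : 0 ≤ √(j : ℝ) := Real.sqrt_nonneg _
    have e6 : 1 ≤ ε₁ * √(j : ℝ) := by
      rw [div_le_iff₀ h1] at e3
      linarith
    calc _ ≤ √(j : ℝ) := e2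
      _ = 1 * √(j : ℝ) := (one_mul _).symm
      _ ≤ (ε₁ * √(j : ℝ)) * √(j : ℝ) := mul_le_mul_of_nonneg_right e6 e5
      _ = ε₁ * j := by rw [mul_assoc, e4]
  have s3 : |∑ m ∈ Finset.Ioc n (n + j), fT T m - j| ≤ 2 * ε₁ * j := by
    refine s1.trans ?_
    have := mul_le_mul_of_nonneg_right hRε hjpos.le
    linarith
  obtain ⟨F, hF⟩ : ∃ F, F = ∑ m ∈ Finset.Ioc n (n + j), fT T m := ⟨_, rfl⟩
  have s4 := mss_bounds T (n := n) (j := j) g2 hj1
  rw [← hF] at s3 s4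
  rw [← hL] at s4
  have s5 := abs_le.1 s3
  obtain ⟨Q, hQ⟩ : ∃ Q, Q = (j : ℝ) / L := ⟨_, rfl⟩
  have hQ0 : 0 < Q := by rw [hQ]; positivity
  have s6 : mss (aT T) n j ≤ (1 + 2 * ε₁) * Q := by
    refine s4.2.trans ?_
    rw [hQ, div_le_iff₀ hL0]
    have : (1 + 2 * ε₁) * (j / L) * L = (1 + 2 * ε₁) * j := by field_simp
    rw [this]; linarith [s5.2]
  have s7 : (1 - 3 * ε₁) * Q ≤ mss (aT T) n j := by
    refine le_trans ?_ s4.1
    rw [le_div_iff₀ (by linarith), hQ]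
    have e1 : (1 - 3 * ε₁) * (j / L) * (L + 2) = (1 - 3 * ε₁) * j * (1 + 2 / L) := by field_simp
    rw [e1]
    have e2 : (1 - 3 * ε₁) * j * (1 + 2 / L) = (1 - 3 * ε₁) * j + (1 - 3 * ε₁) * j * (2 / L) := by ring
    have e3 : (1 - 3 * ε₁) * j * (2 / L) ≤ ε₁ * j := by
      have e4 : 0 ≤ 2 / L := by positivity
      have e5 : (1 - 3 * ε₁) * j ≤ j := by nlinarith
      calc (1 - 3 * ε₁) * j * (2 / L) ≤ j * (2 / L) := mul_le_mul_of_nonneg_right e5 e4
        _ ≤ j * ε₁ := mul_le_mul_of_nonneg_left hL1 hjpos.le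
        _ = _ := mul_comm _ _
    rw [e2]
    linarith [s5.1]
  -- the law of large numbers
  have l1 := g1 j (by nlinarith)
  have l2 : max (mss (aT T) n j) (50 / ε₁ ^ 2 * Real.log n) ≤ 3 * Q := by
    apply max_le
    · nlinarith
    · rw [← hL, hQ, ← mul_div_assoc, le_div_iff₀ hL0]
      have : 50 / ε₁ ^ 2 * L * L = 50 / ε₁ ^ 2 * L ^ 2 := by ring
      rw [this]; linarith
  have l3 : |ct A n j ω - mss (aT T) n j| ≤ ε₁ * (3 * Q) := l1.trans (mul_le_mul_of_nonneg_left l2 h1.le)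
  have l4 := abs_le.1 l3
  rw [← hQ]
  have hεQ : 8 * ε₁ * Q ≤ ε * Q := mul_le_mul_of_nonneg_right h3 hQ0.le
  rw [abs_le]
  constructor <;> nlinarith [l4.1, l4.2, mul_pos h1 hQ0]

/-- the passage from integral to real windows -/
lemma conv {ε : ℝ} (hε : 0 < ε) (hε1 : ε ≤ 1 / 4) : ∀ᶠ x : ℝ in atTop, ∀ y : ℝ, Real.log x ≤ y → ∀ c : ℝ,
    |c - ((⌊x + y⌋₊ - ⌊x⌋₊ : ℕ) : ℝ) / Real.log ⌊x⌋₊| ≤ ε * (((⌊x + y⌋₊ - ⌊x⌋₊ : ℕ) : ℝ) / Real.log ⌊x⌋₊) →
      |c / (y / Real.log x) - 1| ≤ 8 * ε := by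
  filter_upwards [eventually_ge_atTop 4, Real.tendsto_log_atTop.eventually_ge_atTop (2 / ε + 2)] with x h1 h2 y hy c hc
  obtain ⟨n, hn⟩ : ∃ n, n = ⌊x⌋₊ := ⟨_, rfl⟩
  obtain ⟨j, hj⟩ : ∃ j, j = ⌊x + y⌋₊ - ⌊x⌋₊ := ⟨_, rfl⟩
  rw [← hj, ← hn] at hc
  have he : 8 ≤ 2 / ε := by
    rw [le_div_iff₀ hε]; linarith
  have hlx : 0 < Real.log x := by linarith
  have hy0 : 0 < y := by linarith
  have n1 : (n : ℝ) ≤ x := by rw [hn]; exact Nat.floor_le (by linarith)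
  have n2 : x < n + 1 := by rw [hn]; exact Nat.lt_floor_add_one x
  have m1 : (⌊x + y⌋₊ : ℝ) ≤ x + y := Nat.floor_le (by linarith)
  have m2 : x + y < ⌊x + y⌋₊ + 1 := Nat.lt_floor_add_one _
  have hle : ⌊x⌋₊ ≤ ⌊x + y⌋₊ := Nat.floor_mono (by linarith)
  have j0 : (j : ℝ) = ⌊x + y⌋₊ - n := by rw [hj, hn]; push_cast [Nat.cast_sub hle]; ring
  have j1 : (j : ℝ) ≤ y + 1 := by linarith
  have j2 : y - 1 ≤ j := by linarith
  have jn : (0 : ℝ) ≤ j := Nat.cast_nonneg j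
  -- logarithms
  have hn3 : (3 : ℝ) ≤ n := by
    have : 3 ≤ n := by
      rw [hn]
      exact Nat.le_floor (by push_cast; linarith)
    exact_mod_cast this
  have l1 : Real.log n ≤ Real.log x := Real.log_le_log (by linarith) n1
  have l2 : Real.log x ≤ Real.log n + 1 := by
    have h3 : x ≤ 2 * n := by linarith
    have h4 := Real.log_le_log (by linarith) h3
    rw [Real.log_mul (by norm_num) (by linarith)] at h4
    have := Real.log_two_lt_d9
    linarith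
  have ln0 : 0 < Real.log n := by linarith
  have r1 : Real.log x ≤ (1 + ε) * Real.log n := by
    have : 1 ≤ ε * Real.log n := by
      have e1 : 2 / ε ≤ Real.log n := by linarith
      have := mul_le_mul_of_nonneg_left e1 hε.le
      have e2 : ε * (2 / ε) = 2 := by field_simp
      linarith
    linarith
  have r2 : 1 ≤ ε * y := by
    have e1 : 2 / ε ≤ y := by linarith
    have := mul_le_mul_of_nonneg_left e1 hε.le
    have e2 : ε * (2 / ε) = 2 := by field_simp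
    linarith
  have c1 := abs_le.1 hc
  have c2 : c ≤ (1 + ε) * (j / Real.log n) := by linarith [c1.2]
  have c3 : (1 - ε) * (j / Real.log n) ≤ c := by linarith [c1.1]
  have e0 : c / (y / Real.log x) = c * Real.log x / y := by field_simp
  rw [e0, abs_le]
  have jl : (j : ℝ) / Real.log n * Real.log x ≤ (1 + ε) * ((1 + ε) * y) := by
    rw [div_mul_eq_mul_div, div_le_iff₀ ln0]
    calc (j : ℝ) * Real.log x ≤ ((1 + ε) * y) * ((1 + ε) * Real.log n) :=
          mul_le_mul (by linarith) r1 hlx.le (by positivity)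
      _ = _ := by ring
  have jl2 : (1 - ε) * y ≤ (j : ℝ) / Real.log n * Real.log x := by
    rw [div_mul_eq_mul_div, le_div_iff₀ ln0]
    exact mul_le_mul (by linarith) l1 ln0.le jn
  constructor
  · rw [le_sub_iff_add_le, le_div_iff₀ hy0]
    have g1 : (1 - ε) * (j / Real.log n) * Real.log x ≤ c * Real.log x := mul_le_mul_of_nonneg_right c3 hlx.le
    have g2 : (1 - ε) * ((1 - ε) * y) ≤ (1 - ε) * (j / Real.log n * Real.log x) :=
      mul_le_mul_of_nonneg_left jl2 (by linarith)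
    nlinarith [mul_pos hε hy0]
  · rw [sub_le_iff_le_add, div_le_iff₀ hy0]
    have g1 : c * Real.log x ≤ (1 + ε) * (j / Real.log n) * Real.log x := mul_le_mul_of_nonneg_right c2 hlx.le
    have g2 : (1 + ε) * (j / Real.log n * Real.log x) ≤ (1 + ε) * ((1 + ε) * ((1 + ε) * y)) :=
      mul_le_mul_of_nonneg_left jl (by linarith)
    have g3 : (1 + ε) * ((1 + ε) * ((1 + ε) * y)) ≤ (8 * ε + 1) * y := by
      have g4 : (1 + ε) * ((1 + ε) * (1 + ε)) ≤ 8 * ε + 1 := by nlinarith [mul_pos hε hε]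
      calc (1 + ε) * ((1 + ε) * ((1 + ε) * y)) = (1 + ε) * ((1 + ε) * (1 + ε)) * y := by ring
        _ ≤ _ := mul_le_mul_of_nonneg_right g4 hy0.le
    linarith

end Pool.Agent.U462.Uni
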