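import Mathlib
import Pool.Agent.U462.Uni.Law

set_option autoImplicit false
set_option linter.unusedSectionVars false

/-! # The uniform law for real windows, and its consequences -/

open MeasureTheory Filter Set
open scoped ENNReal Topology

namespace Pool.Agent.U462.Uni

open Pool.Agent.U462.Gap (Model aT fT aT_nonneg aT_tendsto fT_nonneg Small tlog)

/-- `(S(x + y) - S(x)) / (y / log x)`, `S(x)` the number of elements of `S` up to `x` -/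
noncomputable def RR (S : Set ℕ) (x y : ℝ) : ℝ := ({n : ℕ | n ∈ S ∧ x < n ∧ (n : ℝ) ≤ x + y}.ncard : ℝ) / (y / Real.log x)

lemma cnt_eq {Ω : Type} (A : ℕ → Set Ω) (ω : Ω) {x y : ℝ} (hx : 0 ≤ x) (hy : 0 ≤ y) :
    ({n : ℕ | n ∈ {n | ω ∈ A n} ∧ x < n ∧ (n : ℝ) ≤ x + y}.ncard : ℝ) = ct A ⌊x⌋₊ (⌊x + y⌋₊ - ⌊x⌋₊) ω := by
  classical
  have hle : ⌊x⌋₊ ≤ ⌊x + y⌋₊ := Nat.floor_mono (by linarith)
  have h1 : {n : ℕ | n ∈ {n | ω ∈ A n} ∧ x < n ∧ (n : ℝ) ≤ x + y} =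
      ((Finset.Ioc ⌊x⌋₊ ⌊x + y⌋₊).filter (fun n => ω ∈ A n) : Finset ℕ) := by
    ext n
    simp only [mem_ofPred_eq, Finset.coe_filter, Finset.mem_Ioc]
    rw [Nat.floor_lt hx, Nat.le_floor_iff (by linarith)]
    tauto
  rw [h1, Set.ncard_coe_finset]
  unfold ct
  have h2 : ∀ r, (A (⌊x⌋₊ + r + 1)).indicator (fun _ => (1 : ℝ)) ω = if ω ∈ A (⌊x⌋₊ + r + 1) then 1 else 0 := by
    intro r
    by_cases h : ω ∈ A (⌊x⌋₊ + r + 1)
    · rw [Set.indicator_of_mem h, if_pos h]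
    · rw [Set.indicator_of_notMem h, if_neg h]
  simp_rw [h2]
  rw [Finset.card_filter]
  push_cast
  have h3 : Finset.Ioc ⌊x⌋₊ ⌊x + y⌋₊ = (Finset.range (⌊x + y⌋₊ - ⌊x⌋₊)).image (fun r => ⌊x⌋₊ + r + 1) := by
    ext n
    simp only [Finset.mem_Ioc, Finset.mem_image, Finset.mem_range]
    constructor
    · rintro ⟨g1, g2⟩
      exact ⟨n - ⌊x⌋₊ - 1, by omega, by omega⟩
    · rintro ⟨r, g1, rfl⟩
      omega
  rw [h3, Finset.sum_image (fun a _ b _ hab => by simpa using hab)]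

/-- the uniform law for real windows -/
theorem uniR (ε : ℝ) (hε : 0 < ε) : ∃ (u : ℕ) (Λ : ℝ), 1 ≤ Λ ∧
    ∀ (Ω : Type) (m0 : MeasurableSpace Ω) (μ : Measure Ω) (_ : IsProbabilityMeasure μ)
      (ℱ : Filtration ℕ m0) (A : ℕ → Set Ω) (T : ℕ → ℕ), Model μ ℱ A (aT T) → Monotone T → Small T →
      ∀ᵐ ω ∂μ, ∀ᶠ x : ℝ in atTop, ∀ y : ℝ, Λ * Real.log x ^ 2 ≤ y → y ≤ x → ((T ⌊4 * x⌋₊ : ℝ) + 2) ^ u ≤ y →
        |RR {n | ω ∈ A n} x y - 1| ≤ ε := by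
  obtain ⟨ε₁, h1, h2, h3⟩ : ∃ ε₁ : ℝ, 0 < ε₁ ∧ ε₁ ≤ 1 / 4 ∧ 8 * ε₁ ≤ ε :=
    ⟨min (1 / 4) (ε / 8), lt_min (by norm_num) (by positivity), min_le_left _ _, by
      have := min_le_right (1 / 4) (ε / 8); linarith⟩
  obtain ⟨u, Λ, hΛ, H⟩ := uni ε₁ h1
  refine ⟨u + 1, 2 * Λ, by linarith, ?_⟩
  intro Ω m0 μ _ ℱ A T hM hT hTs
  filter_upwards [H Ω m0 μ inferInstance ℱ A T hM hT hTs] with ω hω
  have hfl : Tendsto (fun x : ℝ => ⌊x⌋₊) atTop atTop := tendsto_nat_floor_atTop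
  filter_upwards [hfl.eventually hω, conv h1 h2, eventually_ge_atTop 2, Real.tendsto_log_atTop.eventually_ge_atTop 2]
    with x g1 g2 g3 g4 y hy1 hy2 hy3
  have hL1 : 1 ≤ Real.log x := by linarith
  have hy0 : 2 ≤ y := by nlinarith
  have hlogy : Real.log x ≤ y := by nlinarith
  obtain ⟨n, hn⟩ : ∃ n, n = ⌊x⌋₊ := ⟨_, rfl⟩
  obtain ⟨j, hj⟩ : ∃ j, j = ⌊x + y⌋₊ - ⌊x⌋₊ := ⟨_, rfl⟩
  have n1 : (n : ℝ) ≤ x := by rw [hn]; exact Nat.floor_le (by linarith)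
  have n2 : x < n + 1 := by rw [hn]; exact Nat.lt_floor_add_one x
  have m1 : (⌊x + y⌋₊ : ℝ) ≤ x + y := Nat.floor_le (by linarith)
  have m2 : x + y < ⌊x + y⌋₊ + 1 := Nat.lt_floor_add_one _
  have hle : ⌊x⌋₊ ≤ ⌊x + y⌋₊ := Nat.floor_mono (by linarith)
  have j0 : (j : ℝ) = ⌊x + y⌋₊ - n := by rw [hj, hn]; push_cast [Nat.cast_sub hle]; ring
  have j1 : (j : ℝ) ≤ y + 1 := by linarith
  have j2 : y - 1 ≤ j := by linarith
  have hn2 : 2 ≤ n := by rw [hn]; exact Nat.le_floor (by push_cast; linarith)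
  have hn2' : (2 : ℝ) ≤ n := by exact_mod_cast hn2
  have hj3 : j ≤ 3 * n := by
    have : (j : ℝ) ≤ 3 * n := by linarith
    exact_mod_cast this
  have hj4 : Λ * Real.log n ^ 2 ≤ j := by
    have e1 : Real.log n ≤ Real.log x := Real.log_le_log (by linarith) n1
    have e2 : 0 ≤ Real.log n := Real.log_nonneg (by linarith)
    have e3 : Real.log n ^ 2 ≤ Real.log x ^ 2 := pow_le_pow_left₀ e2 e1 2
    have e4 : Λ * Real.log n ^ 2 ≤ Λ * Real.log x ^ 2 := mul_le_mul_of_nonneg_left e3 (by linarith)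
    linarith
  have hj5 : ((T (4 * n) : ℝ) + 2) ^ u ≤ j := by
    have e1 : T (4 * n) ≤ T ⌊4 * x⌋₊ := by
      apply hT
      apply Nat.le_floor
      push_cast
      linarith
    have e2 : ((T (4 * n) : ℝ) + 2) ^ u ≤ ((T ⌊4 * x⌋₊ : ℝ) + 2) ^ u := by
      apply pow_le_pow_left₀ (by positivity)
      have : (T (4 * n) : ℝ) ≤ T ⌊4 * x⌋₊ := by exact_mod_cast e1
      linarith
    have e3 : ((T ⌊4 * x⌋₊ : ℝ) + 2) ^ u * 2 ≤ ((T ⌊4 * x⌋₊ : ℝ) + 2) ^ (u + 1) := by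
      rw [pow_succ]
      apply mul_le_mul_of_nonneg_left _ (by positivity)
      have : (0 : ℝ) ≤ T ⌊4 * x⌋₊ := Nat.cast_nonneg _
      linarith
    linarith
  rw [← hn] at g1
  have k1 := g1 j hj3 hj4 hj5
  unfold RR
  rw [cnt_eq A ω (by linarith) (by linarith), ← hj, ← hn]
  refine (g2 y hlogy (ct A n j ω) ?_).trans h3
  rw [← hj, ← hn]
  exact k1

/-- the uniform law as a property of a set -/
def UL (T : ℕ → ℕ) (S : Set ℕ) : Prop := ∀ ε : ℝ, 0 < ε → ∃ (u : ℕ) (Λ : ℝ), 1 ≤ Λ ∧ ∀ᶠ x : ℝ in atTop,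
  ∀ y : ℝ, Λ * Real.log x ^ 2 ≤ y → y ≤ x → ((T ⌊4 * x⌋₊ : ℝ) + 2) ^ u ≤ y → |RR S x y - 1| ≤ ε

theorem ul_ae {Ω : Type} {m0 : MeasurableSpace Ω} {μ : Measure Ω} [IsProbabilityMeasure μ]
    {ℱ : Filtration ℕ m0} {A : ℕ → Set Ω} {T : ℕ → ℕ} (h : Model μ ℱ A (aT T)) (hT : Monotone T) (hTs : Small T) :
    ∀ᵐ ω ∂μ, UL T {n | ω ∈ A n} := by
  have h1 : ∀ᵐ ω ∂μ, ∀ k : ℕ, ∃ (u : ℕ) (Λ : ℝ), 1 ≤ Λ ∧ ∀ᶠ x : ℝ in atTop,
      ∀ y : ℝ, Λ * Real.log x ^ 2 ≤ y → y ≤ x → ((T ⌊4 * x⌋₊ : ℝ) + 2) ^ u ≤ y → |RR {n | ω ∈ A n} x y - 1| ≤ 1 / (k + 1) := by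
    rw [ae_all_iff]
    intro k
    obtain ⟨u, Λ, hΛ, H⟩ := uniR (1 / (k + 1)) (by positivity)
    filter_upwards [H Ω m0 μ inferInstance ℱ A T h hT hTs] with ω hω
    exact ⟨u, Λ, hΛ, hω⟩
  filter_upwards [h1] with ω hω ε hε
  obtain ⟨k, hk⟩ := exists_nat_one_div_lt hε
  obtain ⟨u, Λ, hΛ, H⟩ := hω k
  refine ⟨u, Λ, hΛ, H.mono fun x hx y a1 a2 a3 => (hx y a1 a2 a3).trans hk.le⟩

lemma powT (T : ℕ → ℕ) {κ : ℝ} (hκ : 0 < κ) (hT : ∀ᶠ n : ℕ in atTop, (T n : ℝ) ≤ Real.log n ^ κ) (u : ℕ) {e : ℝ}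
    (he : κ * u < e) : ∀ᶠ x : ℝ in atTop, ((T ⌊4 * x⌋₊ : ℝ) + 2) ^ u ≤ Real.log x ^ e := by
  have hfl : Tendsto (fun x : ℝ => ⌊4 * x⌋₊) atTop atTop :=
    tendsto_nat_floor_atTop.comp (tendsto_id.const_mul_atTop (by norm_num))
  have hC : ∀ᶠ x : ℝ in atTop, ((2 : ℝ) ^ κ + 2) ^ u ≤ Real.log x ^ (e - κ * u) :=
    ((tendsto_rpow_atTop (by linarith)).comp Real.tendsto_log_atTop).eventually_ge_atTop _
  filter_upwards [hfl.eventually hT, hC, eventually_ge_atTop 2, Real.tendsto_log_atTop.eventually_ge_atTop 2] with x g1 g2 g3 g4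
  have hL0 : 0 < Real.log x := by linarith
  have h4 : Real.log (⌊4 * x⌋₊ : ℝ) ≤ 2 * Real.log x := by
    have e1 : (⌊4 * x⌋₊ : ℝ) ≤ 4 * x := Nat.floor_le (by linarith)
    have e2 : (0 : ℝ) < ⌊4 * x⌋₊ := by
      have : 0 < ⌊4 * x⌋₊ := Nat.floor_pos.2 (by linarith)
      exact_mod_cast this
    have e3 := Real.log_le_log e2 e1
    rw [Real.log_mul (by norm_num) (by linarith)] at e3
    have h5 : Real.log 4 = 2 * Real.log 2 := by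
      rw [show (4 : ℝ) = 2 ^ 2 by norm_num, Real.log_pow]; norm_num
    have := Real.log_two_lt_d9
    linarith
  have h5 : (T ⌊4 * x⌋₊ : ℝ) + 2 ≤ ((2 : ℝ) ^ κ + 2) * Real.log x ^ κ := by
    have e1 : Real.log (⌊4 * x⌋₊ : ℝ) ^ κ ≤ (2 * Real.log x) ^ κ :=
      Real.rpow_le_rpow (Real.log_natCast_nonneg _) h4 hκ.le
    rw [Real.mul_rpow (by norm_num) hL0.le] at e1
    have e2 : 1 ≤ Real.log x ^ κ := Real.one_le_rpow (by linarith) hκ.le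
    nlinarith
  calc ((T ⌊4 * x⌋₊ : ℝ) + 2) ^ u ≤ (((2 : ℝ) ^ κ + 2) * Real.log x ^ κ) ^ u := pow_le_pow_left₀ (by positivity) h5 u
    _ = ((2 : ℝ) ^ κ + 2) ^ u * Real.log x ^ (κ * u) := by
        rw [mul_pow, ← Real.rpow_natCast (Real.log x ^ κ), ← Real.rpow_mul hL0.le]
    _ ≤ Real.log x ^ (e - κ * u) * Real.log x ^ (κ * u) := mul_le_mul_of_nonneg_right g2 (by positivity)
    _ = Real.log x ^ e := by rw [← Real.rpow_add hL0]; congr 1; ring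

/-- the question, for a set `S` -/
def Q1 (S : Set ℕ) : Prop := ∀ ε : ℝ, 0 < ε → ∃ N : ℝ, 1 < N ∧ ∀ x : ℝ, N ≤ x → ∀ y : ℝ, Real.log x ^ N ≤ y → y ≤ x →
  |RR S x y - 1| ≤ ε

theorem q1_of {T : ℕ → ℕ} {S : Set ℕ} (h : UL T S) {κ : ℝ} (hκ : 0 < κ)
    (hT : ∀ᶠ n : ℕ in atTop, (T n : ℝ) ≤ Real.log n ^ κ) : Q1 S := by
  intro ε hε
  obtain ⟨u, Λ, hΛ, H⟩ := h ε hε
  have e1 := powT T hκ hT u (e := κ * u + 1) (by linarith)
  have e2 : ∀ᶠ x : ℝ in atTop, Λ * Real.log x ^ 2 ≤ Real.log x ^ (3 : ℝ) := by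
    filter_upwards [Real.tendsto_log_atTop.eventually_ge_atTop Λ] with x hx
    have h0 : 0 < Real.log x := by linarith
    have : Real.log x ^ (3 : ℝ) = Real.log x * Real.log x ^ 2 := by
      rw [show (3 : ℝ) = ((3 : ℕ) : ℝ) by norm_num, Real.rpow_natCast]; ring
    rw [this]
    exact mul_le_mul_of_nonneg_right hx (by positivity)
  obtain ⟨x₀, hx₀⟩ := eventually_atTop.1 (H.and (e1.and (e2.and (Real.tendsto_log_atTop.eventually_ge_atTop 1))))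
  refine ⟨max x₀ (max 3 (κ * u + 1)), lt_of_lt_of_le (by norm_num) ((le_max_left 3 _).trans (le_max_right _ _)), ?_⟩
  intro x hx y hy1 hy2
  obtain ⟨g1, g2, g3, g4⟩ := hx₀ x ((le_max_left _ _).trans hx)
  have h1 : Real.log x ^ (3 : ℝ) ≤ y :=
    (Real.rpow_le_rpow_of_exponent_le g4 ((le_max_left _ _).trans (le_max_right _ _))).trans hy1
  have h2 : Real.log x ^ (κ * u + 1) ≤ y :=
    (Real.rpow_le_rpow_of_exponent_le g4 ((le_max_right _ _).trans (le_max_right _ _))).trans hy1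
  exact g1 y (g3.trans h1) hy2 (g2.trans h2)

theorem tend_of {T : ℕ → ℕ} {S : Set ℕ} (h : UL T S)
    (hT : ∀ κ : ℝ, 0 < κ → ∀ᶠ n : ℕ in atTop, (T n : ℝ) ≤ Real.log n ^ κ) {e : ℝ} (he : 2 < e) :
    Tendsto (fun x : ℝ => RR S x (Real.log x ^ e)) atTop (𝓝 1) := by
  rw [Metric.tendsto_atTop]
  intro ε hε
  obtain ⟨u, Λ, hΛ, H⟩ := h (ε / 2) (by positivity)
  have e1 := powT T (κ := 1 / (u + 1)) (by positivity) (hT _ (by positivity)) u (e := e) (by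
    have : 1 / ((u : ℝ) + 1) * u ≤ 1 := by
      rw [one_div, inv_mul_le_iff₀ (by positivity)]; linarith
    linarith)
  have e2 : ∀ᶠ x : ℝ in atTop, Λ * Real.log x ^ 2 ≤ Real.log x ^ e := by
    filter_upwards [((tendsto_rpow_atTop (by linarith : 0 < e - 2)).comp Real.tendsto_log_atTop).eventually_ge_atTop Λ,
      Real.tendsto_log_atTop.eventually_gt_atTop 0] with x hx hL
    have : Real.log x ^ e = Real.log x ^ (e - 2) * Real.log x ^ 2 := by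
      rw [← Real.rpow_natCast, ← Real.rpow_add hL]; congr 1; push_cast; ring
    rw [this]
    exact mul_le_mul_of_nonneg_right hx (by positivity)
  have e3 : ∀ᶠ x : ℝ in atTop, Real.log x ^ e ≤ x := by
    have := (isLittleO_log_rpow_rpow_atTop e (by norm_num : (0 : ℝ) < 1)).bound (show (0 : ℝ) < 1 by norm_num)
    filter_upwards [this, eventually_ge_atTop 1] with x hx hx1
    rw [one_mul, Real.rpow_one, Real.norm_eq_abs, Real.norm_eq_abs, abs_of_nonneg (by linarith : 0 ≤ x)] at hx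
    exact (le_abs_self _).trans hx
  obtain ⟨x₀, hx₀⟩ := eventually_atTop.1 (H.and (e1.and (e2.and e3)))
  refine ⟨x₀, fun x hx => ?_⟩
  obtain ⟨g1, g2, g3, g4⟩ := hx₀ x hx
  rw [Real.dist_eq]
  have := g1 _ g3 g4 g2
  linarith

end Pool.Agent.U462.Uni
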