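import Mathlib
import Pool.Agent.U462.Uni.Real
import Pool.Agent.U462.Uni.Irr

set_option autoImplicit false
set_option linter.unusedSectionVars false

/-! # Maier's phenomenon in the sieved models -/

open MeasureTheory Filter Set
open scoped ENNReal Topology

namespace Pool.Agent.U462.Uni

open Pool.Agent.U462.Gap (Model aT fT aT_nonneg aT_tendsto fT_nonneg Small tlog)

variable {Ω : Type} {m0 : MeasurableSpace Ω} {μ : Measure Ω} [IsProbabilityMeasure μ]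
  {ℱ : Filtration ℕ m0} {A : ℕ → Set Ω}

lemma ct_mono (A : ℕ → Set Ω) (t : ℕ) {j j' : ℕ} (h : j ≤ j') (ω : Ω) : ct A t j ω ≤ ct A t j' ω := by
  unfold ct
  apply Finset.sum_le_sum_of_subset_of_nonneg (Finset.range_mono h)
  intro r _ _
  exact indicator_nonneg (fun _ _ => zero_le_one) _

lemma rr_nat (A : ℕ → Set Ω) (ω : Ω) (n : ℕ) {y : ℝ} (hy : 0 ≤ y) :
    RR {n | ω ∈ A n} n y = ct A n ⌊y⌋₊ ω / (y / Real.log n) := by
  have h1 : ⌊(n : ℝ) + y⌋₊ = n + ⌊y⌋₊ := by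
    rw [add_comm, Nat.floor_add_natCast hy, add_comm]
  unfold RR
  rw [cnt_eq A ω (Nat.cast_nonneg n) hy, h1, Nat.floor_natCast, Nat.add_sub_cancel_left]

/-- the asymptotic facts -/
lemma facts {e ε : ℝ} (he : 2 < e) (hε : 0 < ε) : ∀ᶠ x : ℕ in atTop,
    Real.log (2 * x) ^ e ≤ (1 + ε) * Real.log x ^ e ∧ 50 / ε ^ 2 * (Real.log (2 * x) + 2) ^ 2 ≤ Real.log x ^ e ∧
    2 ≤ ε * Real.log x ∧ Real.log (2 * x) ^ e ≤ x ∧ 1 ≤ Real.log x ∧ Real.log (2 * x) ≤ 2 * Real.log x := by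
  have h1 : Tendsto (fun x : ℕ => ((Real.log x + Real.log 2) / Real.log x) ^ e) atTop (𝓝 (1 ^ e)) := by
    apply Tendsto.rpow_const _ (Or.inl one_ne_zero)
    have h2 : Tendsto (fun x : ℕ => 1 + Real.log 2 * (Real.log x)⁻¹) atTop (𝓝 (1 + Real.log 2 * 0)) :=
      (tlog.inv_tendsto_atTop.const_mul _).const_add _
    rw [mul_zero, add_zero] at h2
    refine h2.congr' ?_
    filter_upwards [tlog.eventually_gt_atTop 0] with x hx
    field_simp
  rw [Real.one_rpow] at h1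
  have h3 : ∀ᶠ x : ℕ in atTop, 50 / ε ^ 2 * 16 ≤ Real.log x ^ (e - 2) :=
    ((tendsto_rpow_atTop (by linarith)).comp tlog).eventually_ge_atTop _
  have h4 : ∀ᶠ x : ℕ in atTop, (2 * Real.log x) ^ e ≤ x := by
    have := (isLittleO_log_rpow_rpow_atTop e (by norm_num : (0 : ℝ) < 1)).bound (show (0 : ℝ) < 1 / 2 ^ e by positivity)
    filter_upwards [tendsto_natCast_atTop_atTop.eventually this, tlog.eventually_ge_atTop 0] with x hx hx1
    rw [Real.rpow_one, Real.norm_eq_abs, Real.norm_eq_abs, abs_of_nonneg (Nat.cast_nonneg x : (0 : ℝ) ≤ (x : ℝ))] at hx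
    rw [Real.mul_rpow (by norm_num) hx1]
    have h5 := (le_abs_self _).trans hx
    have h6 := mul_le_mul_of_nonneg_left h5 (show (0 : ℝ) ≤ 2 ^ e by positivity)
    refine h6.trans (le_of_eq ?_)
    field_simp
  filter_upwards [h1.eventually (eventually_le_nhds (show (1 : ℝ) < 1 + ε by linarith)), h3, h4,
    tlog.eventually_ge_atTop (2 / ε), tlog.eventually_ge_atTop 2, eventually_ge_atTop 2] with x g1 g2 g3 g4 g5 g6
  have hx2 : (2 : ℝ) ≤ x := by exact_mod_cast g6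
  obtain ⟨L, hL⟩ : ∃ L, L = Real.log (x : ℝ) := ⟨_, rfl⟩
  have e0 : Real.log (2 * (x : ℝ)) = L + Real.log 2 := by
    rw [Real.log_mul (by norm_num) (by linarith), hL]; ring
  have hl2 := Real.log_two_lt_d9
  have hl0 : 0 < Real.log 2 := Real.log_pos (by norm_num)
  rw [← hL] at g1 g2 g3 g4 g5
  rw [e0, ← hL]
  have hL0 : 0 < L := by linarith
  refine ⟨?_, ?_, ?_, ?_, by linarith, by linarith⟩
  · have e1 : L + Real.log 2 = ((L + Real.log 2) / L) * L := by field_simp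
    rw [e1, Real.mul_rpow (by positivity) hL0.le]
    exact mul_le_mul_of_nonneg_right g1 (by positivity)
  · have e1 : L ^ e = L ^ (e - 2) * L ^ 2 := by
      rw [← Real.rpow_natCast, ← Real.rpow_add hL0]; congr 1; push_cast; ring
    rw [e1]
    have e2 : (L + Real.log 2 + 2) ^ 2 ≤ 16 * L ^ 2 := by nlinarith
    calc 50 / ε ^ 2 * (L + Real.log 2 + 2) ^ 2 ≤ 50 / ε ^ 2 * (16 * L ^ 2) := mul_le_mul_of_nonneg_left e2 (by positivity)
      _ = 50 / ε ^ 2 * 16 * L ^ 2 := by ring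
      _ ≤ _ := mul_le_mul_of_nonneg_right g2 (by positivity)
  · rw [div_le_iff₀ hε] at g4; linarith
  · exact (Real.rpow_le_rpow (by positivity) (by linarith) (by linarith)).trans g3

set_option maxHeartbeats 4000000 in
/-- windows with too few elements -/
lemma few {T : ℕ → ℕ} (hT : Monotone T) (hTs : Small T) {θ : ℝ} (hθ : 0 < θ)
    (hf : ∃ᶠ n : ℕ in atTop, Real.log n ^ θ ≤ T n) {ω : Ω}
    (hω : ∀ k : ℕ, ∀ᶠ n : ℕ in atTop, ∀ j : ℕ, j ≤ n ^ 2 → |ct A n j ω - mss (aT T) n j| ≤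
      1 / ((k : ℝ) + 1) * max (mss (aT T) n j) (50 / (1 / ((k : ℝ) + 1)) ^ 2 * Real.log n)) {e : ℝ} (he : 2 < e) :
    ∃ δ : ℝ, 0 < δ ∧ ∃ᶠ x : ℝ in atTop, RR {n | ω ∈ A n} x (Real.log x ^ e) ≤ 1 - δ := by
  obtain ⟨δ, hδ, hδ1, H⟩ := irr θ e (-1) hθ (by linarith) (Or.inr rfl)
  obtain ⟨k, hk⟩ := exists_nat_one_div_lt (show 0 < δ / 8 by positivity)
  obtain ⟨ε, hε⟩ : ∃ ε : ℝ, ε = 1 / ((k : ℝ) + 1) := ⟨_, rfl⟩
  have hε0 : 0 < ε := by rw [hε]; positivity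
  rw [← hε] at hk
  refine ⟨δ / 2, by positivity, ?_⟩
  have hωk := hω k
  rw [← hε] at hωk
  obtain ⟨N, hN⟩ := eventually_atTop.1 hωk
  rw [frequently_atTop]
  intro X
  obtain ⟨x, hx1, ⟨hx2, hx3, hx4, hx5⟩⟩ := (hf.and_eventually ((H T hT hTs).and ((facts he hε0).and
    ((eventually_ge_atTop N).and (eventually_ge_atTop (⌈X⌉₊ + 2)))))).exists
  obtain ⟨f1, f2, f3, f4, f5, f6⟩ := hx3
  obtain ⟨n, hn1, hn2, hn3⟩ := hx2 hx1 (Real.log (2 * x) ^ e) (by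
    have hx0 : (0 : ℝ) < x := by
      have : 0 < x := by omega
      exact_mod_cast this
    exact Real.rpow_le_rpow (by linarith) (Real.log_le_log hx0 (by linarith)) (by linarith)) (by
    have : 0 ≤ Real.log x ^ e := Real.rpow_nonneg (by linarith) _
    have hε1 : ε ≤ 1 := by linarith
    nlinarith)
  have hx0 : (0 : ℝ) < x := by
    have : 0 < x := by omega
    exact_mod_cast this
  have hnx : (x : ℝ) < n := by exact_mod_cast hn1
  have hn2x : (n : ℝ) ≤ 2 * x := by exact_mod_cast hn2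
  have hn0 : (0 : ℝ) < n := by linarith
  obtain ⟨y, hy⟩ : ∃ y, y = Real.log (2 * x) ^ e := ⟨_, rfl⟩
  obtain ⟨L, hL⟩ : ∃ L, L = Real.log (n : ℝ) := ⟨_, rfl⟩
  have hL1 : Real.log x ≤ L := by rw [hL]; exact Real.log_le_log hx0 hnx.le
  have hL2 : L ≤ Real.log (2 * x) := by rw [hL]; exact Real.log_le_log hn0 hn2x
  have hL0 : 0 < L := by linarith
  have hye : L ^ e ≤ y := by rw [hy]; exact Real.rpow_le_rpow hL0.le hL2 (by linarith)
  have hye2 : y ≤ (1 + ε) * L ^ e := by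
    rw [hy]
    refine f1.trans (mul_le_mul_of_nonneg_left ?_ (by linarith))
    exact Real.rpow_le_rpow (by linarith) hL1 (by linarith)
  have hLe : 0 < L ^ e := Real.rpow_pos_of_pos hL0 _
  have hy0 : 0 < y := by linarith
  rw [← hy] at hn3 f4
  refine ⟨n, ?_, ?_⟩
  · have : X ≤ ⌈X⌉₊ := Nat.le_ceil X
    have h2 : ((⌈X⌉₊ + 2 : ℕ) : ℝ) ≤ x := by exact_mod_cast hx5
    push_cast at h2
    linarith
  rw [← hL, rr_nat A ω n hLe.le, ← hL]
  have hYn : ⌊y⌋₊ ≤ n := by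
    have : (⌊y⌋₊ : ℝ) ≤ n := (Nat.floor_le hy0.le).trans (by linarith)
    exact_mod_cast this
  have c1 : ct A n ⌊L ^ e⌋₊ ω ≤ ct A n ⌊y⌋₊ ω := ct_mono A n (Nat.floor_mono hye) ω
  have c2 := hN n (by omega) ⌊y⌋₊ (by nlinarith)
  have c3 := (mss_bounds T (n := n) (j := ⌊y⌋₊) (by omega) (by omega)).2
  rw [← hL] at c3 c2
  have c4 : mss (aT T) n ⌊y⌋₊ ≤ (1 - δ) * y / L := by
    refine c3.trans (div_le_div_of_nonneg_right ?_ hL0.le)
    linarith
  have c5 : max (mss (aT T) n ⌊y⌋₊) (50 / ε ^ 2 * L) ≤ y / L := by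
    apply max_le
    · refine c4.trans (div_le_div_of_nonneg_right ?_ hL0.le)
      nlinarith
    · rw [le_div_iff₀ hL0]
      have e1 : 50 / ε ^ 2 * L * L ≤ 50 / ε ^ 2 * (Real.log (2 * x) + 2) ^ 2 := by
        rw [mul_assoc]
        apply mul_le_mul_of_nonneg_left _ (by positivity)
        nlinarith
      have e2 : Real.log x ^ e ≤ y := by
        rw [hy]
        exact Real.rpow_le_rpow (by linarith) (by linarith) (by linarith)
      linarith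
  have c6 : ct A n ⌊L ^ e⌋₊ ω ≤ (1 - δ + ε) * (y / L) := by
    have e1 := (abs_le.1 c2).2
    have e2 := mul_le_mul_of_nonneg_left c5 hε0.le
    have e3 : (1 - δ) * y / L = (1 - δ) * (y / L) := by ring
    linarith
  rw [div_le_iff₀ (by positivity)]
  refine c6.trans ?_
  have e1 : y / L ≤ (1 + ε) * (L ^ e / L) := by
    rw [← mul_div_assoc]
    exact div_le_div_of_nonneg_right hye2 hL0.le
  have e2 : 0 ≤ 1 - δ + ε := by linarith
  have e3 : (1 - δ + ε) * (1 + ε) ≤ 1 - δ / 2 := by nlinarith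
  calc (1 - δ + ε) * (y / L) ≤ (1 - δ + ε) * ((1 + ε) * (L ^ e / L)) := mul_le_mul_of_nonneg_left e1 e2
    _ = (1 - δ + ε) * (1 + ε) * (L ^ e / L) := by ring
    _ ≤ _ := mul_le_mul_of_nonneg_right e3 (by positivity)

set_option maxHeartbeats 4000000 in
/-- windows with too many elements -/
lemma many {T : ℕ → ℕ} (hT : Monotone T) (hTs : Small T) {θ : ℝ} (hθ : 0 < θ)
    (hf : ∃ᶠ n : ℕ in atTop, Real.log n ^ θ ≤ T n) {ω : Ω}
    (hω : ∀ k : ℕ, ∀ᶠ n : ℕ in atTop, ∀ j : ℕ, j ≤ n ^ 2 → |ct A n j ω - mss (aT T) n j| ≤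
      1 / ((k : ℝ) + 1) * max (mss (aT T) n j) (50 / (1 / ((k : ℝ) + 1)) ^ 2 * Real.log n)) {e : ℝ} (he : 2 < e) :
    ∃ δ : ℝ, 0 < δ ∧ ∃ᶠ x : ℝ in atTop, 1 + δ ≤ RR {n | ω ∈ A n} x (Real.log x ^ e) := by
  obtain ⟨δ, hδ, hδ1, H⟩ := irr θ e 1 hθ (by linarith) (Or.inl rfl)
  obtain ⟨k, hk⟩ := exists_nat_one_div_lt (show 0 < δ / 16 by positivity)
  obtain ⟨ε, hε⟩ : ∃ ε : ℝ, ε = 1 / ((k : ℝ) + 1) := ⟨_, rfl⟩
  have hε0 : 0 < ε := by rw [hε]; positivity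
  rw [← hε] at hk
  refine ⟨δ / 2, by positivity, ?_⟩
  have hωk := hω k
  rw [← hε] at hωk
  obtain ⟨N, hN⟩ := eventually_atTop.1 hωk
  rw [frequently_atTop]
  intro X
  obtain ⟨x, hx1, ⟨hx2, hx3, hx4, hx5⟩⟩ := (hf.and_eventually ((H T hT hTs).and ((facts he hε0).and
    ((eventually_ge_atTop N).and (eventually_ge_atTop (⌈X⌉₊ + 2)))))).exists
  obtain ⟨f1, f2, f3, f4, f5, f6⟩ := hx3
  obtain ⟨n, hn1, hn2, hn3⟩ := hx2 hx1 (Real.log x ^ e) le_rfl (by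
    have : 0 ≤ Real.log x ^ e := Real.rpow_nonneg (by linarith) _
    linarith)
  have hx0 : (0 : ℝ) < x := by
    have : 0 < x := by omega
    exact_mod_cast this
  have hnx : (x : ℝ) < n := by exact_mod_cast hn1
  have hn2x : (n : ℝ) ≤ 2 * x := by exact_mod_cast hn2
  have hn0 : (0 : ℝ) < n := by linarith
  obtain ⟨y, hy⟩ : ∃ y, y = Real.log x ^ e := ⟨_, rfl⟩
  obtain ⟨L, hL⟩ : ∃ L, L = Real.log (n : ℝ) := ⟨_, rfl⟩
  have hL1 : Real.log x ≤ L := by rw [hL]; exact Real.log_le_log hx0 hnx.le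
  have hL2 : L ≤ Real.log (2 * x) := by rw [hL]; exact Real.log_le_log hn0 hn2x
  have hL0 : 0 < L := by linarith
  have hye : y ≤ L ^ e := by rw [hy]; exact Real.rpow_le_rpow (by linarith) hL1 (by linarith)
  have hye2 : L ^ e ≤ (1 + ε) * y := by
    rw [hy]
    refine le_trans ?_ f1
    exact Real.rpow_le_rpow hL0.le hL2 (by linarith)
  have hy0 : 0 < y := by rw [hy]; exact Real.rpow_pos_of_pos (by linarith) _
  have hLe : 0 < L ^ e := Real.rpow_pos_of_pos hL0 _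
  rw [← hy] at hn3 f1 f2
  refine ⟨n, ?_, ?_⟩
  · have : X ≤ ⌈X⌉₊ := Nat.le_ceil X
    have h2 : ((⌈X⌉₊ + 2 : ℕ) : ℝ) ≤ x := by exact_mod_cast hx5
    push_cast at h2
    linarith
  rw [← hL, rr_nat A ω n hLe.le, ← hL]
  have hyx : y ≤ x := by
    refine le_trans ?_ f4
    rw [hy]
    exact Real.rpow_le_rpow (by linarith) (by linarith) (by linarith)
  have hYn : ⌊y⌋₊ ≤ n := by
    have : (⌊y⌋₊ : ℝ) ≤ n := (Nat.floor_le hy0.le).trans (by linarith)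
    exact_mod_cast this
  have c1 : ct A n ⌊y⌋₊ ω ≤ ct A n ⌊L ^ e⌋₊ ω := ct_mono A n (Nat.floor_mono hye) ω
  have c2 := hN n (by omega) ⌊y⌋₊ (by nlinarith)
  have c3 := (mss_bounds T (n := n) (j := ⌊y⌋₊) (by omega) (by omega)).1
  rw [← hL] at c3 c2
  obtain ⟨M, hM⟩ : ∃ M, M = mss (aT T) n ⌊y⌋₊ := ⟨_, rfl⟩
  rw [← hM] at c2 c3
  have c4 : (1 + δ) * y / (L + 2) ≤ M := by
    refine le_trans (div_le_div_of_nonneg_right ?_ (by linarith)) c3
    linarith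
  have c5 : max M (50 / ε ^ 2 * L) = M := by
    apply max_eq_left
    refine le_trans ?_ c4
    rw [le_div_iff₀ (by linarith)]
    have e1 : 50 / ε ^ 2 * L * (L + 2) ≤ 50 / ε ^ 2 * (Real.log (2 * x) + 2) ^ 2 := by
      rw [mul_assoc]
      apply mul_le_mul_of_nonneg_left _ (by positivity)
      nlinarith
    have e2 : y ≤ (1 + δ) * y := by
      have := mul_pos hδ hy0
      linarith
    linarith
  rw [c5] at c2
  have c6 : (1 - ε) * M ≤ ct A n ⌊L ^ e⌋₊ ω := by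
    have e1 := (abs_le.1 c2).1
    linarith
  rw [le_div_iff₀ (by positivity)]
  refine le_trans ?_ c6
  have hεs : ε ≤ 1 / 8 := by linarith
  have e1 : (1 - ε) * ((1 + δ) * y / (L + 2)) ≤ (1 - ε) * M := mul_le_mul_of_nonneg_left c4 (by linarith)
  refine le_trans ?_ e1
  have e2 : (1 - ε) * (1 / L) ≤ 1 / (L + 2) := by
    rw [mul_one_div, div_le_div_iff₀ hL0 (by linarith)]
    have : 2 ≤ ε * L := by nlinarith
    nlinarith
  have e3 : (1 - ε) * L ^ e ≤ y := by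
    have : (1 - ε) * L ^ e ≤ (1 - ε) * ((1 + ε) * y) := mul_le_mul_of_nonneg_left hye2 (by linarith)
    nlinarith [mul_nonneg (sq_nonneg ε) hy0.le]
  have e4 : 1 + δ / 2 ≤ (1 - ε) * (1 + δ) * (1 - ε) * (1 - ε) := by
    have g1 : 1 - 3 * ε ≤ (1 - ε) * (1 - ε) * (1 - ε) := by nlinarith
    have g2 : (1 - 3 * ε) * (1 + δ) ≤ (1 - ε) * (1 - ε) * (1 - ε) * (1 + δ) := mul_le_mul_of_nonneg_right g1 (by linarith)
    have g3 : (1 - 3 * (δ / 16)) * (1 + δ) ≤ (1 - 3 * ε) * (1 + δ) := mul_le_mul_of_nonneg_right (by linarith) (by linarith)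
    have g4 : 1 + δ / 2 ≤ (1 - 3 * (δ / 16)) * (1 + δ) := by nlinarith
    linarith
  calc (1 + δ / 2) * (L ^ e / L) ≤ ((1 - ε) * (1 + δ) * (1 - ε) * (1 - ε)) * (L ^ e / L) :=
        mul_le_mul_of_nonneg_right e4 (by positivity)
    _ = (1 - ε) * (1 + δ) * (((1 - ε) * L ^ e) * ((1 - ε) * (1 / L))) := by ring
    _ ≤ (1 - ε) * (1 + δ) * (y * (1 / (L + 2))) := by
        apply mul_le_mul_of_nonneg_left _ (mul_nonneg (by linarith) (by linarith))
        exact mul_le_mul e3 e2 (mul_nonneg (by linarith) (by positivity)) hy0.le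
    _ = _ := by ring

/-- Maier's phenomenon -/
theorem maier {T : ℕ → ℕ} (h : Model μ ℱ A (aT T)) (hT : Monotone T) (hTs : Small T) {θ : ℝ} (hθ : 0 < θ)
    (hf : ∃ᶠ n : ℕ in atTop, Real.log n ^ θ ≤ T n) :
    ∀ᵐ ω ∂μ, ∀ e : ℝ, 2 < e → ∃ δ : ℝ, 0 < δ ∧ (∃ᶠ x : ℝ in atTop, RR {n | ω ∈ A n} x (Real.log x ^ e) ≤ 1 - δ) ∧
      (∃ᶠ x : ℝ in atTop, 1 + δ ≤ RR {n | ω ∈ A n} x (Real.log x ^ e)) := by
  have h1 : ∀ᵐ ω ∂μ, ∀ k : ℕ, ∀ᶠ n : ℕ in atTop, ∀ j : ℕ, j ≤ n ^ 2 → |ct A n j ω - mss (aT T) n j| ≤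
      1 / ((k : ℝ) + 1) * max (mss (aT T) n j) (50 / (1 / ((k : ℝ) + 1)) ^ 2 * Real.log n) := by
    rw [ae_all_iff]
    intro k
    refine lln (μ := μ) h (aT_nonneg T) (aT_tendsto T hTs) (by positivity) ?_
    rw [div_le_one (by positivity)]
    have : (0 : ℝ) ≤ k := Nat.cast_nonneg k
    linarith
  filter_upwards [h1] with ω hω e he
  obtain ⟨δ₁, h1, h2⟩ := few hT hTs hθ hf hω he
  obtain ⟨δ₂, h3, h4⟩ := many hT hTs hθ hf hω he
  refine ⟨min δ₁ δ₂, lt_min h1 h3, h2.mono fun x hx => ?_, h4.mono fun x hx => ?_⟩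
  · have := min_le_left δ₁ δ₂
    linarith
  · have := min_le_right δ₁ δ₂
    linarith

end Pool.Agent.U462.Uni
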